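import Mathlib
import Pool.Agent.R833.ST3

set_option autoImplicit false

/-!
# The Solomon-Terao algebra of an arrangement of `n` hyperplanes vanishes in degrees larger than `n`
-/

namespace Pool.Agent.L5helper27.STD

open MvPolynomial Pool.Agent.R833 Pool.Agent.R833.Arr Pool.Agent.R833.HF Pool.Agent.R833.ST

variable {K : Type} [Field K] {l n : ℕ}

/-- the derivative in the direction `v` -/
noncomputable def dir (v : Fin l → K) :
    Derivation K (MvPolynomial (Fin l) K) (MvPolynomial (Fin l) K) :=
  mkDerivation K fun j => C (v j)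

lemma dir_X (v : Fin l → K) (j : Fin l) : dir v (X j) = C (v j) := by
  unfold dir
  rw [mkDerivation_X]

lemma dir_linearForm (v a : Fin l → K) : dir v (linearForm a) = C (∑ j, a j * v j) := by
  rw [der_linearForm, map_sum]
  refine Finset.sum_congr rfl fun j _ => ?_
  rw [dir_X, C_mul]

lemma dir_eq (v : Fin l → K) (f : MvPolynomial (Fin l) K) :
    dir v f = ∑ j, C (v j) * pderiv j f := by
  unfold dir
  have h : mkDerivation K (fun j => C (v j)) =
      ∑ j, (C (v j) : MvPolynomial (Fin l) K) • (pderiv j :
        Derivation K (MvPolynomial (Fin l) K) (MvPolynomial (Fin l) K)) := by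
    apply MvPolynomial.derivation_ext
    intro i
    rw [mkDerivation_X, ← Derivation.coeFnAddMonoidHom_apply, map_sum, Finset.sum_apply]
    simp only [Derivation.coeFnAddMonoidHom_apply, Derivation.smul_apply, smul_eq_mul, pderiv_X]
    rw [Finset.sum_eq_single i]
    · simp
    · intro b _ hb
      rw [Pi.single_eq_of_ne hb.symm, mul_zero]
    · simp
  rw [h, ← Derivation.coeFnAddMonoidHom_apply, map_sum, Finset.sum_apply]
  rfl

/-- The form `f` is non-degenerate on the linear subspace `W`: the derivatives of its restriction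
to `W` in the directions of `W` have no common zero on `W` other than the origin. -/
def NonDegenerateOn (f : MvPolynomial (Fin l) K) (W : Submodule K (Fin l → K)) : Prop :=
  ∀ w ∈ W, (∀ u ∈ W, ∑ j, u j * eval w (pderiv j f) = 0) → w = 0

/-- a homogeneous polynomial of degree one is a linear form -/
lemma exists_linearForm {f : MvPolynomial (Fin l) K} (hf : f.IsHomogeneous 1) :
    ∃ a, f = linearForm a := by
  refine ⟨fun j => coeff (Finsupp.single j 1) f, ?_⟩
  ext m
  by_cases hm : m.degree = 1
  · obtain ⟨j, rfl⟩ : ∃ j, m = Finsupp.single j 1 := by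
      rw [Finsupp.degree_eq_sum] at hm
      have h0 : ∃ j, m j ≠ 0 := by
        by_contra hc
        push Not at hc
        rw [Finset.sum_eq_zero fun j _ => hc j] at hm
        omega
      obtain ⟨j, hj⟩ := h0
      refine ⟨j, ?_⟩
      have h1 := Finset.add_sum_erase Finset.univ (fun i => m i) (Finset.mem_univ j)
      rw [hm] at h1
      have h2 : ∑ i ∈ Finset.univ.erase j, m i = 0 := by omega
      have h3 := Finset.sum_eq_zero_iff.1 h2
      ext i
      by_cases hij : i = j
      · subst hij
        rw [Finsupp.single_eq_same]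
        omega
      · rw [h3 i (Finset.mem_erase.2 ⟨hij, Finset.mem_univ i⟩), Finsupp.single_apply, if_neg (Ne.symm hij)]
    rw [coeff_linearForm]
  · rw [hf.coeff_eq_zero (by simpa using hm), (linearForm_homogeneous _).coeff_eq_zero (by simpa using hm)]

lemma eval_linearForm (a w : Fin l → K) : eval w (linearForm a) = ∑ j, a j * w j := by
  unfold linearForm
  simp

/-- the linear forms vanishing on `W` -/
noncomputable def van (W : Submodule K (Fin l → K)) : Ideal (MvPolynomial (Fin l) K) :=
  Ideal.span {f | ∃ a : Fin l → K, (∀ w ∈ W, ∑ j, a j * w j = 0) ∧ f = linearForm a}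

open Classical in
/-- the special elements of the Solomon-Terao ideal -/
noncomputable def spec (A : Fin n → Fin l → K) (η : MvPolynomial (Fin l) K) (M : Finset (Fin n))
    (W : Submodule K (Fin l → K)) : Ideal (MvPolynomial (Fin l) K) :=
  Ideal.span {f | ∃ Z ∈ flats A, Z ≤ W ∧ ∃ v ∈ Z,
    f = (∏ i ∈ M.filter fun i => ¬ Z ≤ hyperplane (A i), linearForm (A i)) * dir v η}

lemma homI_span {s : Set (MvPolynomial (Fin l) K)} (hs : ∀ f ∈ s, ∃ d, f.IsHomogeneous d) :
    HomI (Ideal.span s) := by
  intro f hf i
  induction hf using Submodule.span_induction generalizing i with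
  | mem x hx =>
    obtain ⟨d, hd⟩ := hs x hx
    rw [homogeneousComponent_of_mem hd]
    split_ifs
    · exact Ideal.subset_span hx
    · exact Ideal.zero_mem _
  | zero =>
    rw [map_zero]
    exact Ideal.zero_mem _
  | add x y _ _ hx hy =>
    rw [map_add]
    exact Ideal.add_mem _ (hx i) (hy i)
  | smul a x hx ih =>
    rw [smul_eq_mul]
    have h : a * x = ∑ e ∈ Finset.range (x.totalDegree + 1), a * homogeneousComponent e x := by
      rw [← Finset.mul_sum, sum_homogeneousComponent]
    rw [h, map_sum]
    apply Ideal.sum_mem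
    intro e _
    rw [component_mul2 i (homogeneousComponent_isHomogeneous e x)]
    exact Ideal.mul_mem_left _ _ (ih e)

lemma homI_sup' {I J : Ideal (MvPolynomial (Fin l) K)} (hI : HomI I) (hJ : HomI J) :
    HomI (I ⊔ J) := by
  intro f hf i
  obtain ⟨g, hg, h, hh, rfl⟩ := Submodule.mem_sup.1 hf
  rw [map_add]
  exact Ideal.add_mem _ (Ideal.mem_sup_left (hI g hg i)) (Ideal.mem_sup_right (hJ h hh i))

lemma dir_homogeneous {f : MvPolynomial (Fin l) K} {d : ℕ} (hf : f.IsHomogeneous d)
    (v : Fin l → K) : (dir v f).IsHomogeneous (d - 1) := by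
  rw [dir_eq]
  apply IsHomogeneous.sum
  intro j _
  have := (hf.pderiv (i := j)).C_mul (v j)
  exact this

lemma homI_van (W : Submodule K (Fin l → K)) : HomI (van W) := by
  apply homI_span
  rintro f ⟨a, -, rfl⟩
  exact ⟨1, linearForm_homogeneous a⟩

lemma homI_spec (A : Fin n → Fin l → K) {η : MvPolynomial (Fin l) K} {d : ℕ}
    (hη : η.IsHomogeneous d) (M : Finset (Fin n)) (W : Submodule K (Fin l → K)) :
    HomI (spec A η M W) := by
  apply homI_span
  rintro f ⟨Z, -, -, v, -, rfl⟩
  exact ⟨_, (IsHomogeneous.prod _ _ (fun _ => 1) fun i _ => linearForm_homogeneous (A i)).mul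
    (dir_homogeneous hη v)⟩

/-- if all the forms of degree `N` are in the ideal, then also the forms of larger degrees -/
lemma forms_mono {I : Ideal (MvPolynomial (Fin l) K)} {N : ℕ}
    (h : ∀ f : MvPolynomial (Fin l) K, f.IsHomogeneous N → f ∈ I) :
    ∀ k, ∀ f : MvPolynomial (Fin l) K, f.IsHomogeneous (N + k) → f ∈ I := by
  intro k
  induction k with
  | zero => exact h
  | succ k ih =>
    intro f hf
    rw [f.as_sum]
    apply Ideal.sum_mem
    intro m hm
    have hd : m.degree = N + (k + 1) := by
      by_contra hc
      exact (mem_support_iff.1 hm) (hf.coeff_eq_zero (by simpa using hc))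
    have h0 : ∃ j, m j ≠ 0 := by
      by_contra hc
      push Not at hc
      rw [Finsupp.degree_eq_sum, Finset.sum_eq_zero fun j _ => hc j] at hd
      omega
    obtain ⟨j, hj⟩ := h0
    have h1 : monomial m (coeff m f) = monomial (m - Finsupp.single j 1) (coeff m f) * X j := by
      rw [X, monomial_mul, mul_one]
      congr 2
      rw [Finsupp.sub_add_single_one_cancel hj]
    rw [h1]
    apply Ideal.mul_mem_right
    apply ih
    apply isHomogeneous_monomial
    have h2 : m = (m - Finsupp.single j 1) + Finsupp.single j 1 := by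
      rw [Finsupp.sub_add_single_one_cancel hj]
    rw [h2, map_add, Finsupp.degree_single] at hd
    omega

lemma van_inf {W : Submodule K (Fin l → K)} {c : Fin l → K} (hc : ¬ W ≤ hyperplane c) :
    van (W ⊓ hyperplane c) ≤ Ideal.span {linearForm c} ⊔ van W := by
  unfold van
  rw [Ideal.span_le]
  rintro _ ⟨a, ha, rfl⟩
  obtain ⟨w0, hw0, hc0⟩ := Set.not_subset.1 hc
  have hc0' : ∑ j, c j * w0 j ≠ 0 := fun h => hc0 (mem_hyperplane.2 h)
  set t := (∑ j, a j * w0 j) / ∑ j, c j * w0 j with ht
  have h1 : linearForm a = C t * linearForm c + linearForm (a - t • c) := by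
    rw [← linearForm_smul]
    unfold linearForm
    rw [← Finset.sum_add_distrib]
    refine Finset.sum_congr rfl fun j _ => ?_
    rw [← add_mul, ← C_add]
    congr 2
    simp
  rw [SetLike.mem_coe, h1]
  apply Ideal.add_mem
  · exact Ideal.mem_sup_left (Ideal.mul_mem_left _ _ (Ideal.mem_span_singleton_self _))
  · apply Ideal.mem_sup_right
    apply Ideal.subset_span
    refine ⟨_, fun w hw => ?_, rfl⟩
    have h2 : w - ((∑ j, c j * w j) / ∑ j, c j * w0 j) • w0 ∈ W ⊓ hyperplane c := by
      refine ⟨W.sub_mem hw (W.smul_mem _ hw0), ?_⟩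
      rw [SetLike.mem_coe, mem_hyperplane]
      simp only [Pi.sub_apply, Pi.smul_apply, smul_eq_mul, mul_sub, Finset.sum_sub_distrib]
      have : ∀ s : K, ∑ j, c j * (s * w0 j) = s * ∑ j, c j * w0 j := by
        intro s
        rw [Finset.mul_sum]
        exact Finset.sum_congr rfl fun j _ => by ring
      rw [this, div_mul_cancel₀ _ hc0', sub_self]
    have h3 := ha _ h2
    simp only [Pi.sub_apply, Pi.smul_apply, smul_eq_mul, mul_sub, sub_mul,
      Finset.sum_sub_distrib] at h3 ⊢
    have e1 : ∀ s : K, ∑ j, a j * (s * w0 j) = s * ∑ j, a j * w0 j := by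
      intro s
      rw [Finset.mul_sum]
      exact Finset.sum_congr rfl fun j _ => by ring
    have e2 : ∑ j, t * c j * w j = t * ∑ j, c j * w j := by
      rw [Finset.mul_sum]
      exact Finset.sum_congr rfl fun j _ => by ring
    rw [e1] at h3
    rw [e2, ← h3, ht]
    field_simp

/-- surjectivity of the map given by a nondegenerate form -/
lemma exists_dir {η : MvPolynomial (Fin l) K} (hη : η.IsHomogeneous 2)
    {W : Submodule K (Fin l → K)} (hW : NonDegenerateOn η W) (a : Fin l → K) :
    ∃ u ∈ W, ∃ b, (∀ w ∈ W, ∑ j, b j * w j = 0) ∧ linearForm a = dir u η + linearForm b := by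
  have h0 : ∀ j, ∃ h, pderiv j η = linearForm h := fun j => exists_linearForm (hη.pderiv (i := j))
  choose h hh using h0
  -- the bilinear form
  let T : W →ₗ[K] Module.Dual K W :=
    { toFun := fun w =>
        { toFun := fun u => ∑ j, u.1 j * ∑ k, h j k * w.1 k
          map_add' := fun u u' => by
            rw [← Finset.sum_add_distrib]
            exact Finset.sum_congr rfl fun j _ => by
              rw [Submodule.coe_add, Pi.add_apply, add_mul]
          map_smul' := fun c u => by
            rw [RingHom.id_apply, smul_eq_mul, Finset.mul_sum]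
            exact Finset.sum_congr rfl fun j _ => by
              rw [Submodule.coe_smul, Pi.smul_apply, smul_eq_mul, mul_assoc] }
      map_add' := fun w w' => by
        ext u
        simp only [LinearMap.coe_mk, AddHom.coe_mk, LinearMap.add_apply]
        rw [← Finset.sum_add_distrib]
        refine Finset.sum_congr rfl fun j _ => ?_
        rw [← mul_add, ← Finset.sum_add_distrib]
        congr 1
        exact Finset.sum_congr rfl fun k _ => by rw [Submodule.coe_add, Pi.add_apply, mul_add]
      map_smul' := fun c w => by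
        ext u
        simp only [LinearMap.coe_mk, AddHom.coe_mk, LinearMap.smul_apply, smul_eq_mul,
          RingHom.id_apply]
        rw [Finset.mul_sum]
        refine Finset.sum_congr rfl fun j _ => ?_
        rw [Finset.mul_sum, Finset.mul_sum, Finset.mul_sum]
        refine Finset.sum_congr rfl fun k _ => ?_
        rw [Submodule.coe_smul, Pi.smul_apply, smul_eq_mul]
        ring }
  have hT : Function.Injective T := by
    rw [injective_iff_map_eq_zero]
    intro w hw
    apply Subtype.ext
    apply hW w.1 w.2
    intro u hu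
    have := congrArg (fun f => f ⟨u, hu⟩) hw
    have h1 : ∑ j, u j * ∑ k, h j k * w.1 k = 0 := this
    rw [← h1]
    refine Finset.sum_congr rfl fun j _ => ?_
    rw [hh, eval_linearForm]
  have hTs : Function.Injective T.flip := by
    have hfr : Module.finrank K W = Module.finrank K (Module.Dual K W) :=
      Subspace.dual_finrank_eq.symm
    have hs : Function.Surjective T :=
      (LinearMap.injective_iff_surjective_of_finrank_eq_finrank hfr).1 hT
    rw [injective_iff_map_eq_zero]
    intro u hu
    have h1 : ∀ f : Module.Dual K W, f u = 0 := by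
      intro f
      obtain ⟨w, rfl⟩ := hs f
      have := congrArg (fun g => g w) hu
      exact this
    exact (Module.forall_dual_apply_eq_zero_iff K u).1 h1
  have hs : Function.Surjective T.flip := by
    have hfr : Module.finrank K W = Module.finrank K (Module.Dual K W) :=
      Subspace.dual_finrank_eq.symm
    exact (LinearMap.injective_iff_surjective_of_finrank_eq_finrank hfr).1 hTs
  let fa : Module.Dual K W :=
    { toFun := fun w => ∑ j, a j * w.1 j
      map_add' := fun w w' => by
        rw [← Finset.sum_add_distrib]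
        exact Finset.sum_congr rfl fun j _ => by rw [Submodule.coe_add, Pi.add_apply, mul_add]
      map_smul' := fun c w => by
        rw [RingHom.id_apply, smul_eq_mul, Finset.mul_sum]
        exact Finset.sum_congr rfl fun j _ => by
          rw [Submodule.coe_smul, Pi.smul_apply, smul_eq_mul]
          ring }
  obtain ⟨u, hu⟩ := hs fa
  refine ⟨u.1, u.2, a - fun k => ∑ j, u.1 j * h j k, ?_, ?_⟩
  · intro w hw
    have h1 := congrArg (fun f => f ⟨w, hw⟩) hu
    have h2 : ∑ j, u.1 j * ∑ k, h j k * w k = ∑ j, a j * w j := h1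
    simp only [Pi.sub_apply, sub_mul, Finset.sum_sub_distrib]
    rw [← h2, sub_eq_zero]
    simp only [Finset.mul_sum, Finset.sum_mul]
    rw [Finset.sum_comm]
    exact Finset.sum_congr rfl fun j _ => Finset.sum_congr rfl fun k _ => by ring
  · rw [dir_eq]
    have e1 : ∑ j, C (u.1 j) * pderiv j η = linearForm fun k => ∑ j, u.1 j * h j k := by
      unfold linearForm
      simp only [hh]
      unfold linearForm
      simp only [map_sum, C_mul, Finset.sum_mul, Finset.mul_sum]
      rw [Finset.sum_comm]
      exact Finset.sum_congr rfl fun j _ => Finset.sum_congr rfl fun k _ => by ring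
    rw [e1]
    unfold linearForm
    rw [← Finset.sum_add_distrib]
    refine Finset.sum_congr rfl fun j _ => ?_
    rw [← add_mul, ← C_add]
    congr 2
    simp

open Classical in
/-- the induction -/
theorem mem_spec (A : Fin n → Fin l → K) {η : MvPolynomial (Fin l) K} (hη : η.IsHomogeneous 2)
    (hnd : ∀ W ∈ flats A, NonDegenerateOn η W) :
    ∀ N : ℕ, ∀ (M : Finset (Fin n)) (W : Submodule K (Fin l → K)), M.card = N → W ∈ flats A →
      (∀ i ∈ M, ¬ W ≤ hyperplane (A i)) → ∀ f : MvPolynomial (Fin l) K,
      f.IsHomogeneous (M.card + 1) → f ∈ spec A η M W ⊔ van W := by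
  intro N
  induction N using Nat.strong_induction_on with
  | _ N ih =>
  intro M W hMN hW hM f hf
  rcases M.eq_empty_or_nonempty with rfl | ⟨c, hc⟩
  · rw [Finset.card_empty, zero_add] at hf
    obtain ⟨a, rfl⟩ := exists_linearForm hf
    obtain ⟨u, hu, b, hb, he⟩ := exists_dir hη (hnd W hW) a
    rw [he]
    apply Ideal.add_mem
    · apply Ideal.mem_sup_left
      apply Ideal.subset_span
      exact ⟨W, hW, le_rfl, u, hu, by simp⟩
    · apply Ideal.mem_sup_right
      apply Ideal.subset_span
      exact ⟨b, hb, rfl⟩
  · set W' := W ⊓ hyperplane (A c) with hW'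
    set M' := M.filter fun i => ¬ W' ≤ hyperplane (A i) with hM'
    have hcM' : c ∉ M' := by
      rw [hM', Finset.mem_filter]
      rintro ⟨-, h⟩
      exact h inf_le_right
    have hsub : M' ⊆ M.erase c := fun i hi => Finset.mem_erase.2
      ⟨fun h => hcM' (h ▸ hi), (Finset.mem_filter.1 hi).1⟩
    have hcard : (M.erase c).card + 1 = M.card := Finset.card_erase_add_one hc
    have hle := Finset.card_le_card hsub
    have hW'f : W' ∈ flats A := by
      obtain ⟨s, hs⟩ := hW
      refine ⟨insert c s, ?_⟩
      rw [hW', hs, iInf_insert, inf_comm]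
    have h1 := ih M'.card (by omega) M' W' rfl hW'f (fun i hi => (Finset.mem_filter.1 hi).2)
    obtain ⟨k, hk⟩ := Nat.exists_eq_add_of_le (show M'.card + 1 ≤ M.card + 1 by omega)
    have h2 := forms_mono h1 k f (by rw [← hk]; exact hf)
    have h3 : spec A η M' W' ⊔ van W' ≤
        Ideal.span {linearForm (A c)} ⊔ (spec A η M W ⊔ van W) := by
      apply sup_le
      · refine le_trans ?_ (le_trans le_sup_left le_sup_right)
        unfold spec
        apply Ideal.span_mono
        rintro g ⟨Z, hZ, hZW, v, hv, rfl⟩
        refine ⟨Z, hZ, hZW.trans inf_le_left, v, hv, ?_⟩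
        have : M'.filter (fun i => ¬ Z ≤ hyperplane (A i)) =
            M.filter fun i => ¬ Z ≤ hyperplane (A i) := by
          ext i
          rw [Finset.mem_filter, Finset.mem_filter, Finset.mem_filter]
          exact ⟨fun h => ⟨h.1.1, h.2⟩, fun h => ⟨⟨h.1, fun h' => h.2 (hZW.trans h')⟩, h.2⟩⟩
        rw [this]
      · refine (van_inf (hM c hc)).trans ?_
        exact sup_le_sup_left le_sup_right _
    have h4 := h3 h2
    rw [Ideal.mem_span_singleton_sup] at h4
    obtain ⟨q, g, hg, hqg⟩ := h4
    have hhom : HomI (spec A η M W ⊔ van W) := homI_sup' (homI_spec A hη M W) (homI_van W)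
    have h5 : f = homogeneousComponent M.card q * linearForm (A c) +
        homogeneousComponent (M.card + 1) g := by
      have e1 := component_self (K := K) (i := M.card + 1) hf
      rw [← hqg, map_add, component_mul2 _ (linearForm_homogeneous (A c)), if_pos (by omega),
        Nat.add_sub_cancel] at e1
      rw [← hqg]
      exact e1.symm
    rw [h5]
    apply Ideal.add_mem _ _ (hhom g hg _)
    have h6 := ih (M.erase c).card (by omega) (M.erase c) W rfl hW
      (fun i hi => hM i (Finset.mem_of_mem_erase hi)) (homogeneousComponent M.card q) (by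
        rw [hcard]
        exact homogeneousComponent_isHomogeneous _ _)
    have h7 : ∀ g ∈ spec A η (M.erase c) W ⊔ van W, g * linearForm (A c) ∈
        spec A η M W ⊔ van W := by
      intro g hg
      obtain ⟨g1, hg1, g2, hg2, rfl⟩ := Submodule.mem_sup.1 hg
      rw [add_mul]
      apply Ideal.add_mem _ _ (Ideal.mem_sup_right (Ideal.mul_mem_right _ _ hg2))
      apply Ideal.mem_sup_left
      induction hg1 using Submodule.span_induction with
      | mem x hx =>
        obtain ⟨Z, hZ, hZW, v, hv, rfl⟩ := hx
        by_cases hZc : Z ≤ hyperplane (A c)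
        · apply Ideal.mul_mem_right
          apply Ideal.subset_span
          refine ⟨Z, hZ, hZW, v, hv, ?_⟩
          have : (M.erase c).filter (fun i => ¬ Z ≤ hyperplane (A i)) =
              M.filter fun i => ¬ Z ≤ hyperplane (A i) := by
            ext i
            rw [Finset.mem_filter, Finset.mem_filter, Finset.mem_erase]
            exact ⟨fun h => ⟨h.1.2, h.2⟩, fun h => ⟨⟨fun h' => h.2 (h' ▸ hZc), h.1⟩, h.2⟩⟩
          rw [this]
        · apply Ideal.subset_span
          refine ⟨Z, hZ, hZW, v, hv, ?_⟩
          have : M.filter (fun i => ¬ Z ≤ hyperplane (A i)) =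
              insert c ((M.erase c).filter fun i => ¬ Z ≤ hyperplane (A i)) := by
            ext i
            rw [Finset.mem_insert, Finset.mem_filter, Finset.mem_filter, Finset.mem_erase]
            constructor
            · rintro ⟨h1, h2⟩
              by_cases hic : i = c
              · exact Or.inl hic
              · exact Or.inr ⟨⟨hic, h1⟩, h2⟩
            · rintro (rfl | ⟨⟨-, h1⟩, h2⟩)
              · exact ⟨hc, hZc⟩
              · exact ⟨h1, h2⟩
          rw [this, Finset.prod_insert (by simp)]
          ring
      | zero =>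
        rw [zero_mul]
        exact Ideal.zero_mem _
      | add x y _ _ hx hy =>
        rw [add_mul]
        refine Ideal.add_mem _ (hx ?_) (hy ?_)
        · exact Ideal.add_mem _ (Ideal.mem_sup_left (by assumption)) (Ideal.mem_sup_right hg2)
        · exact Ideal.add_mem _ (Ideal.mem_sup_left (by assumption)) (Ideal.mem_sup_right hg2)
      | smul a x hx ih =>
        rw [smul_eq_mul, mul_assoc]
        refine Ideal.mul_mem_left _ _ (ih ?_)
        exact Ideal.add_mem _ (Ideal.mem_sup_left (by assumption)) (Ideal.mem_sup_right hg2)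
    exact h7 _ h6

/-- the Solomon-Terao ideal contains all the forms of degree larger than the number of the
hyperplanes -/
theorem mem_stIdeal (A : Fin n → Fin l → K) (hA : ∀ i, A i ≠ 0) {η : MvPolynomial (Fin l) K}
    (hη : η.IsHomogeneous 2) (hnd : ∀ W ∈ flats A, NonDegenerateOn η W)
    {f : MvPolynomial (Fin l) K} {d : ℕ} (hd : n < d) (hf : f.IsHomogeneous d) :
    f ∈ stIdeal A η := by
  classical
  have hnotle : ∀ i ∈ (Finset.univ : Finset (Fin n)), ¬ (⊤ : Submodule K (Fin l → K)) ≤
      hyperplane (A i) := by
    intro i _ h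
    apply hA i
    funext j
    have h1 := mem_hyperplane.1 (h (Submodule.mem_top (x := (Pi.single j 1 : Fin l → K))))
    simpa [Pi.single_apply] using h1
  have h1 := mem_spec A hη hnd n Finset.univ ⊤ (by simp) ⟨∅, by simp⟩ hnotle
  rw [Finset.card_univ, Fintype.card_fin] at h1
  obtain ⟨k, rfl⟩ := Nat.exists_eq_add_of_le (show n + 1 ≤ d by omega)
  have h2 := forms_mono h1 k f hf
  have h3 : van (⊤ : Submodule K (Fin l → K)) = ⊥ := by
    unfold van
    rw [eq_bot_iff, Ideal.span_le]
    rintro _ ⟨a, ha, rfl⟩
    have : a = 0 := by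
      funext j
      have h1 := ha (Pi.single j 1) Submodule.mem_top
      simpa [Pi.single_apply] using h1
    rw [this]
    simp [linearForm]
  rw [h3, sup_bot_eq] at h2
  refine (?_ : spec A η Finset.univ ⊤ ≤ stIdeal A η) h2
  unfold spec
  rw [Ideal.span_le]
  rintro _ ⟨Z, -, -, v, hv, rfl⟩
  apply Ideal.subset_span
  refine ⟨(∏ i ∈ Finset.univ.filter fun i => ¬ Z ≤ hyperplane (A i), linearForm (A i)) • dir v,
    ?_, by rw [Derivation.smul_apply, smul_eq_mul]⟩
  intro i
  rw [Derivation.smul_apply, smul_eq_mul, dir_linearForm]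
  by_cases hZ : Z ≤ hyperplane (A i)
  · rw [mem_hyperplane.1 (hZ hv), C_0, mul_zero]
    exact dvd_zero _
  · exact Dvd.dvd.mul_right (Finset.dvd_prod_of_mem _ (Finset.mem_filter.2 ⟨Finset.mem_univ i, hZ⟩)) _

/-- the Hilbert function vanishes in large degrees -/
theorem hq_eq_zero (A : Fin n → Fin l → K) (hA : ∀ i, A i ≠ 0) {η : MvPolynomial (Fin l) K}
    (hη : η.IsHomogeneous 2) (hnd : ∀ W ∈ flats A, NonDegenerateOn η W) {d : ℕ} (hd : n < d) :
    hq (stIdeal A η) d = 0 := by
  unfold hq
  have : ((stIdeal A η).restrictScalars K).comap (W K l d).subtype = ⊤ := by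
    rw [eq_top_iff]
    intro f _
    exact mem_stIdeal A hA hη hnd hd f.2
  rw [this]
  have : Subsingleton (W K l d ⧸ (⊤ : Submodule K (W K l d))) :=
    Submodule.Quotient.subsingleton_iff.2 rfl
  exact Module.finrank_zero_of_subsingleton

end Pool.Agent.L5helper27.STD
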