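import Mathlib
import Pool.Agent.L5helper27.STD.Top

set_option autoImplicit false

/-!
# Functionals which vanish on Solomon-Terao ideals; bounds of the Hilbert function
-/

namespace Pool.Agent.L5helper27.STD

open MvPolynomial Pool.Agent.R833 Pool.Agent.R833.Arr Pool.Agent.R833.HF Pool.Agent.R833.ST

variable {K : Type} [Field K] {l n : ℕ}

/-- the functional with the values `φ` at the monomials -/
noncomputable def Lf (φ : (Fin l →₀ ℕ) → K) : MvPolynomial (Fin l) K →ₗ[K] K :=
  (basisMonomials (Fin l) K).constr K φ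

lemma Lf_monomial (φ : (Fin l →₀ ℕ) → K) (m : Fin l →₀ ℕ) (c : K) :
    Lf φ (monomial m c) = c * φ m := by
  have h : (monomial m c : MvPolynomial (Fin l) K) = c • basisMonomials (Fin l) K m := by
    rw [coe_basisMonomials, smul_monomial, smul_eq_mul, mul_one]
  rw [h, map_smul, Lf, Module.Basis.constr_basis, smul_eq_mul]

lemma Lf_add (φ φ' : (Fin l →₀ ℕ) → K) (f : MvPolynomial (Fin l) K) :
    Lf (fun m => φ m + φ' m) f = Lf φ f + Lf φ' f := by
  induction f using MvPolynomial.induction_on' with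
  | monomial m c => rw [Lf_monomial, Lf_monomial, Lf_monomial, mul_add]
  | add p q hp hq => rw [map_add, map_add, map_add, hp, hq]; ring

lemma Lf_zero (f : MvPolynomial (Fin l) K) : Lf (fun _ => 0) f = 0 := by
  induction f using MvPolynomial.induction_on' with
  | monomial m c => rw [Lf_monomial, mul_zero]
  | add p q hp hq => rw [map_add, hp, hq, add_zero]

lemma Lf_smul (c : K) (φ : (Fin l →₀ ℕ) → K) (f : MvPolynomial (Fin l) K) :
    Lf (fun m => c * φ m) f = c * Lf φ f := by
  induction f using MvPolynomial.induction_on' with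
  | monomial m a => rw [Lf_monomial, Lf_monomial]; ring
  | add p q hp hq => rw [map_add, map_add, hp, hq, mul_add]

lemma Lf_sum {ι : Type} (s : Finset ι) (φ : ι → (Fin l →₀ ℕ) → K) (f : MvPolynomial (Fin l) K) :
    Lf (fun m => ∑ i ∈ s, φ i m) f = ∑ i ∈ s, Lf (φ i) f := by
  classical
  induction s using Finset.induction_on with
  | empty => simpa using Lf_zero f
  | insert a s ha ih =>
    rw [Finset.sum_insert ha, ← ih, ← Lf_add]
    congr 2
    funext m
    rw [Finset.sum_insert ha]

lemma Lf_X (φ : (Fin l →₀ ℕ) → K) (j : Fin l) (f : MvPolynomial (Fin l) K) :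
    Lf φ (X j * f) = Lf (fun m => φ (m + Finsupp.single j 1)) f := by
  induction f using MvPolynomial.induction_on' with
  | monomial m c =>
    rw [Lf_monomial, X, monomial_mul, Lf_monomial, one_mul, add_comm]
  | add p q hp hq => rw [mul_add, map_add, map_add, hp, hq]

lemma Lf_C_mul (φ : (Fin l →₀ ℕ) → K) (c : K) (f : MvPolynomial (Fin l) K) :
    Lf φ (C c * f) = c * Lf φ f := by
  rw [← smul_eq_C_mul, map_smul, smul_eq_mul]

/-- the diagonal quadratic form -/
noncomputable def diagQ (e : Fin l → K) : MvPolynomial (Fin l) K := ∑ j, C (e j) * X j ^ 2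

lemma diagQ_hom (e : Fin l → K) : (diagQ e).IsHomogeneous 2 := by
  unfold diagQ
  apply IsHomogeneous.sum
  intro j _
  have h := ((isHomogeneous_X K j).pow 2).C_mul (e j)
  simpa using h

lemma der_diagQ (e : Fin l → K)
    (θ : Derivation K (MvPolynomial (Fin l) K) (MvPolynomial (Fin l) K)) :
    θ (diagQ e) = ∑ j, C (2 * e j) * (X j * θ (X j)) := by
  unfold diagQ
  rw [map_sum]
  refine Finset.sum_congr rfl fun j _ => ?_
  rw [Derivation.leibniz, Derivation.leibniz_pow]
  have h0 : θ (C (e j)) = 0 := θ.map_algebraMap (e j)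
  rw [h0]
  simp only [smul_eq_mul, nsmul_eq_mul, Nat.cast_ofNat, Nat.add_one_sub_one, pow_one, mul_zero,
    add_zero]
  rw [C_mul, show (C (2 : K) : MvPolynomial (Fin l) K) = 2 from map_ofNat C 2]
  ring

/-- the elements of the Solomon-Terao ideal -/
lemma mem_st_iff {A : Fin n → Fin l → K} {η f : MvPolynomial (Fin l) K} :
    f ∈ stIdeal A η ↔ ∃ θ ∈ logDer A, θ η = f := by
  constructor
  · intro hf
    unfold stIdeal at hf
    induction hf using Submodule.span_induction with
    | mem x hx => exact hx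
    | zero => exact ⟨0, Submodule.zero_mem _, rfl⟩
    | add x y _ _ hx hy =>
      obtain ⟨θ, h1, rfl⟩ := hx
      obtain ⟨θ', h2, rfl⟩ := hy
      exact ⟨θ + θ', Submodule.add_mem _ h1 h2, rfl⟩
    | smul a x _ hx =>
      obtain ⟨θ, h1, rfl⟩ := hx
      exact ⟨a • θ, Submodule.smul_mem _ _ h1, rfl⟩
  · exact fun h => Ideal.subset_span h

/-- functionals vanishing on the ideal -/
theorem Lf_eq_zero {A : Fin n → Fin l → K} {e : Fin l → K} {ψ : (Fin l →₀ ℕ) → K}
    (φ : Fin n → (Fin l →₀ ℕ) → K)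
    (hE : ∀ m j, 2 * e j * ψ (m + Finsupp.single j 1) = ∑ i, A i j * φ i m)
    (hV : ∀ i m, ∑ j, A i j * φ i (m + Finsupp.single j 1) = 0)
    {f : MvPolynomial (Fin l) K} (hf : f ∈ stIdeal A (diagQ e)) : Lf ψ f = 0 := by
  obtain ⟨θ, hθ, rfl⟩ := mem_st_iff.1 hf
  rw [mem_logDer] at hθ
  rw [der_diagQ, map_sum]
  have h1 : ∀ j, Lf ψ (C (2 * e j) * (X j * θ (X j))) = ∑ i, A i j * Lf (φ i) (θ (X j)) := by
    intro j
    rw [Lf_C_mul, Lf_X, ← Lf_smul]
    have : (fun m => 2 * e j * ψ (m + Finsupp.single j 1)) = fun m => ∑ i, A i j * φ i m :=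
      funext fun m => hE m j
    rw [this, Lf_sum]
    exact Finset.sum_congr rfl fun i _ => Lf_smul _ _ _
  rw [Finset.sum_congr rfl fun j _ => h1 j, Finset.sum_comm]
  apply Finset.sum_eq_zero
  intro i _
  have h2 : ∑ j, A i j * Lf (φ i) (θ (X j)) = Lf (φ i) (∑ j, C (A i j) * θ (X j)) := by
    rw [map_sum]
    exact Finset.sum_congr rfl fun j _ => (Lf_C_mul _ _ _).symm
  rw [h2]
  obtain ⟨g, hg⟩ := hθ i
  rw [hg]
  unfold linearForm
  rw [Finset.sum_mul, map_sum]
  have h3 : ∀ j, Lf (φ i) (C (A i j) * X j * g) =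
      Lf (fun m => A i j * φ i (m + Finsupp.single j 1)) g := by
    intro j
    rw [mul_assoc, Lf_C_mul, Lf_X, Lf_smul]
  rw [Finset.sum_congr rfl fun j _ => h3 j, ← Lf_sum]
  have h4 : (fun m => ∑ j, A i j * φ i (m + Finsupp.single j 1)) = fun _ => (0 : K) :=
    funext fun m => hV i m
  rw [h4, Lf_zero]

/-- lower bound of the Hilbert function -/
theorem le_hq {I : Ideal (MvPolynomial (Fin l) K)} {i r : ℕ}
    (L : Fin r → MvPolynomial (Fin l) K →ₗ[K] K) (M : Fin r → MvPolynomial (Fin l) K)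
    (hM : ∀ a, (M a).IsHomogeneous i) (hL : ∀ a, ∀ f ∈ I, L a f = 0)
    (hne : ∀ a, L a (M a) ≠ 0) (h0 : ∀ a b, a ≠ b → L a (M b) = 0) : r ≤ hq I i := by
  classical
  unfold hq
  let v : Fin r → (W K l i ⧸ (I.restrictScalars K).comap (W K l i).subtype) :=
    fun a => Submodule.Quotient.mk ⟨M a, hM a⟩
  have hv : LinearIndependent K v := by
    rw [Fintype.linearIndependent_iff]
    intro g hg a
    have h1 : (Submodule.Quotient.mk (∑ b, g b • (⟨M b, hM b⟩ : W K l i)) :
        W K l i ⧸ (I.restrictScalars K).comap (W K l i).subtype) = 0 := by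
      rw [← hg]
      change Submodule.mkQ _ _ = _
      rw [map_sum]
      rfl
    rw [Submodule.Quotient.mk_eq_zero] at h1
    have h2 : ∑ b, g b • M b ∈ I := by
      have h3 : ((W K l i).subtype (∑ b, g b • (⟨M b, hM b⟩ : W K l i))) ∈ I := h1
      rw [map_sum] at h3
      exact h3
    have h3 := hL a _ h2
    rw [map_sum, Finset.sum_eq_single a] at h3
    · rw [map_smul, smul_eq_mul] at h3
      exact (mul_eq_zero.1 h3).resolve_right (hne a)
    · intro b _ hb
      rw [map_smul, h0 a b hb.symm, smul_zero]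
    · intro h
      exact absurd (Finset.mem_univ a) h
  have := hv.fintype_card_le_finrank
  rwa [Fintype.card_fin] at this

/-- multiples of `f` in the ideal -/
theorem hI_ge {I : Ideal (MvPolynomial (Fin l) K)} {f : MvPolynomial (Fin l) K} {d : ℕ}
    (hf : f.IsHomogeneous d) (hf0 : f ≠ 0) (hfI : f ∈ I) (i : ℕ) :
    Module.finrank K (W K l i) ≤ hI I (i + d) := by
  have h4 : Module.finrank K ↥((W K l i).map (mulf f)) = Module.finrank K (W K l i) :=
    (LinearEquiv.finrank_eq (Submodule.equivMapOfInjective _ (mulf_injective hf0) _)).symm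
  rw [← h4]
  unfold hI
  apply Submodule.finrank_mono
  rintro _ ⟨g, hg, rfl⟩
  refine ⟨?_, ?_⟩
  · have hg' : g.IsHomogeneous i := hg
    have := hg'.mul hf
    rw [mulf_apply, mul_comm]
    exact this
  · change f * g ∈ I
    exact Ideal.mul_mem_right _ _ hfI

/-- multiples of `f` and one more element in the ideal -/
theorem hI_ge' {I : Ideal (MvPolynomial (Fin l) K)} {f : MvPolynomial (Fin l) K} {d : ℕ}
    (hf : f.IsHomogeneous d) (hf0 : f ≠ 0) (hfI : f ∈ I) (i : ℕ) {g : MvPolynomial (Fin l) K}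
    (hg : g.IsHomogeneous (i + d)) (hgI : g ∈ I) (hgf : ¬ f ∣ g) :
    Module.finrank K (W K l i) + 1 ≤ hI I (i + d) := by
  have h4 : Module.finrank K ↥((W K l i).map (mulf f)) = Module.finrank K (W K l i) :=
    (LinearEquiv.finrank_eq (Submodule.equivMapOfInjective _ (mulf_injective hf0) _)).symm
  rw [← h4]
  unfold hI
  apply Nat.succ_le_of_lt
  apply Submodule.finrank_lt_finrank_of_lt
  apply lt_of_le_of_ne
  · rintro _ ⟨g, hg, rfl⟩
    refine ⟨?_, ?_⟩
    · have hg' : g.IsHomogeneous i := hg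
      have := hg'.mul hf
      rw [mulf_apply, mul_comm]
      exact this
    · change f * g ∈ I
      exact Ideal.mul_mem_right _ _ hfI
  · intro he
    have h5 : g ∈ W K l (i + d) ⊓ I.restrictScalars K := ⟨hg, hgI⟩
    rw [← he] at h5
    obtain ⟨q, -, hq⟩ := h5
    exact hgf ⟨q, hq.symm⟩

end Pool.Agent.L5helper27.STD
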