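import Mathlib
import Pool.Agent.L5helper27.STD.Fun

set_option autoImplicit false

/-!
# Lower bounds of Hilbert functions from tables of functionals
-/

namespace Pool.Agent.L5helper27.STD

open MvPolynomial Pool.Agent.R833 Pool.Agent.R833.Arr Pool.Agent.R833.HF Pool.Agent.R833.ST

variable {K : Type} [Field K] {l n : ℕ}

/-- table lookup: bytes with offset -/
def tc (M idx : ℕ) : ℤ := (((M >>> (8 * idx)) % 256 : ℕ) : ℤ) - 128

/-- table lookup: double bytes with offset -/
def tcc (M idx : ℕ) : ℤ := (((M >>> (16 * idx)) % 65536 : ℕ) : ℤ) - 32768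

/-- degree zero -/
lemma one_le_hq_zero (A : Fin n → Fin l → K) (e : Fin l → K) :
    1 ≤ hq (stIdeal A (diagQ e)) 0 := by
  apply le_hq (r := 1) (fun _ => Lf fun m => if m = 0 then 1 else 0) (fun _ => 1)
  · intro _
    exact isHomogeneous_one _ _
  · intro _ f hf
    apply Lf_eq_zero (fun _ _ => 0) _ _ hf
    · intro m j
      rw [if_neg, mul_zero]
      · simp
      · intro h
        have := congrArg (fun f => f j) h
        simp at this
    · intro i m
      simp
  · intro _
    have : (1 : MvPolynomial (Fin l) K) = monomial 0 1 := rfl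
    rw [this, Lf_monomial, if_pos rfl, one_mul]
    exact one_ne_zero
  · intro a b hab
    exact absurd (Subsingleton.elim a b) hab

/-- the exponent vector in four variables -/
noncomputable def ex4 (k b c d : ℕ) : Fin 4 →₀ ℕ :=
  Finsupp.equivFunOnFinite.symm ![k - (b + c + d), b, c, d]

/-- the exponent vector in three variables -/
noncomputable def ex3 (k b c : ℕ) : Fin 3 →₀ ℕ :=
  Finsupp.equivFunOnFinite.symm ![k - (b + c), b, c]

theorem cert4 [CharZero K] (a : Fin n → Fin 4 → ℤ) (e : Fin 4 → ℤ) (k r : ℕ)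
    (P : Fin r → ℕ → ℕ → ℕ → ℤ) (F : Fin r → Fin n → ℕ → ℕ → ℕ → ℤ)
    (h0 : ∀ s, ∀ b c d : Fin (k + 1), b.val + c.val + d.val ≤ k →
      2 * e 0 * P s b c d = ∑ i, a i 0 * F s i b c d)
    (h1 : ∀ s, ∀ b c d : Fin (k + 1), b.val + c.val + d.val ≤ k →
      2 * e 1 * P s (b + 1) c d = ∑ i, a i 1 * F s i b c d)
    (h2 : ∀ s, ∀ b c d : Fin (k + 1), b.val + c.val + d.val ≤ k →
      2 * e 2 * P s b (c + 1) d = ∑ i, a i 2 * F s i b c d)
    (h3 : ∀ s, ∀ b c d : Fin (k + 1), b.val + c.val + d.val ≤ k →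
      2 * e 3 * P s b c (d + 1) = ∑ i, a i 3 * F s i b c d)
    (hV : ∀ s i, ∀ b c d : Fin (k + 1), b.val + c.val + d.val + 1 ≤ k →
      a i 0 * F s i b c d + a i 1 * F s i (b + 1) c d + a i 2 * F s i b (c + 1) d +
        a i 3 * F s i b c (d + 1) = 0)
    (M : Fin r → ℕ × ℕ × ℕ)
    (hM : ∀ s, (M s).1 + (M s).2.1 + (M s).2.2 ≤ k + 1)
    (hne : ∀ s, P s (M s).1 (M s).2.1 (M s).2.2 ≠ 0)
    (hdiag : ∀ s t, s ≠ t → P s (M t).1 (M t).2.1 (M t).2.2 = 0) :
    r ≤ hq (stIdeal (fun i j => (a i j : K)) (diagQ fun j => (e j : K))) (k + 1) := by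
  have hLM : ∀ s t, Lf (fun m => if m 0 + m 1 + m 2 + m 3 = k + 1 then
      (P s (m 1) (m 2) (m 3) : K) else 0)
      (monomial (ex4 (k + 1) (M t).1 (M t).2.1 (M t).2.2) 1) =
        (P s (M t).1 (M t).2.1 (M t).2.2 : K) := by
    intro s t
    rw [Lf_monomial, one_mul, if_pos]
    · rfl
    · change k + 1 - ((M t).1 + (M t).2.1 + (M t).2.2) + (M t).1 + (M t).2.1 + (M t).2.2 = k + 1
      have := hM t
      omega
  apply le_hq (fun s => Lf fun m => if m 0 + m 1 + m 2 + m 3 = k + 1 then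
      (P s (m 1) (m 2) (m 3) : K) else 0)
    (fun s => monomial (ex4 (k + 1) (M s).1 (M s).2.1 (M s).2.2) 1)
  · intro s
    apply isHomogeneous_monomial
    rw [Finsupp.degree_eq_sum, Fin.sum_univ_four]
    change k + 1 - ((M s).1 + (M s).2.1 + (M s).2.2) + (M s).1 + (M s).2.1 + (M s).2.2 = k + 1
    have := hM s
    omega
  · intro s f hf
    apply Lf_eq_zero (fun i m => if m 0 + m 1 + m 2 + m 3 = k then
      (F s i (m 1) (m 2) (m 3) : K) else 0) _ _ hf
    · intro m j
      have hd : (m + Finsupp.single j 1 : Fin 4 →₀ ℕ) 0 + (m + Finsupp.single j 1 : Fin 4 →₀ ℕ) 1 +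
          (m + Finsupp.single j 1 : Fin 4 →₀ ℕ) 2 + (m + Finsupp.single j 1 : Fin 4 →₀ ℕ) 3 =
            m 0 + m 1 + m 2 + m 3 + 1 := by
        fin_cases j <;> simp <;> omega
      rw [hd]
      by_cases hm : m 0 + m 1 + m 2 + m 3 = k
      · rw [if_pos (by omega)]
        simp only [if_pos hm]
        have hb : m 1 < k + 1 := by omega
        have hc : m 2 < k + 1 := by omega
        have hb3 : m 3 < k + 1 := by omega
        have hs : m 1 + m 2 + m 3 ≤ k := by omega
        fin_cases j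
        · have := congrArg (Int.cast (R := K)) (h0 s ⟨m 1, hb⟩ ⟨m 2, hc⟩ ⟨m 3, hb3⟩ hs)
          push_cast at this
          simpa using this
        · have := congrArg (Int.cast (R := K)) (h1 s ⟨m 1, hb⟩ ⟨m 2, hc⟩ ⟨m 3, hb3⟩ hs)
          push_cast at this
          simpa using this
        · have := congrArg (Int.cast (R := K)) (h2 s ⟨m 1, hb⟩ ⟨m 2, hc⟩ ⟨m 3, hb3⟩ hs)
          push_cast at this
          simpa using this
        · have := congrArg (Int.cast (R := K)) (h3 s ⟨m 1, hb⟩ ⟨m 2, hc⟩ ⟨m 3, hb3⟩ hs)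
          push_cast at this
          simpa using this
      · rw [if_neg (by omega)]
        simp only [if_neg hm]
        simp
    · intro i m
      have hd : ∀ j : Fin 4,
          (m + Finsupp.single j 1 : Fin 4 →₀ ℕ) 0 + (m + Finsupp.single j 1 : Fin 4 →₀ ℕ) 1 +
          (m + Finsupp.single j 1 : Fin 4 →₀ ℕ) 2 + (m + Finsupp.single j 1 : Fin 4 →₀ ℕ) 3 =
            m 0 + m 1 + m 2 + m 3 + 1 := by
        intro j
        fin_cases j <;> simp <;> omega
      simp only [hd]
      by_cases hm : m 0 + m 1 + m 2 + m 3 + 1 = k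
      · simp only [if_pos hm]
        have hb : m 1 < k + 1 := by omega
        have hc : m 2 < k + 1 := by omega
        have hb3 : m 3 < k + 1 := by omega
        have hs : m 1 + m 2 + m 3 + 1 ≤ k := by omega
        have := congrArg (Int.cast (R := K)) (hV s i ⟨m 1, hb⟩ ⟨m 2, hc⟩ ⟨m 3, hb3⟩ hs)
        push_cast at this
        rw [Fin.sum_univ_four]
        simpa using this
      · simp only [if_neg hm]
        simp
  · intro s
    rw [hLM]
    exact_mod_cast hne s
  · intro s t hst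
    rw [hLM]
    exact_mod_cast hdiag s t hst

theorem cert3 [CharZero K] (a : Fin n → Fin 3 → ℤ) (e : Fin 3 → ℤ) (k r : ℕ)
    (P : Fin r → ℕ → ℕ → ℤ) (F : Fin r → Fin n → ℕ → ℕ → ℤ)
    (h0 : ∀ s, ∀ b c : Fin (k + 1), b.val + c.val ≤ k →
      2 * e 0 * P s b c = ∑ i, a i 0 * F s i b c)
    (h1 : ∀ s, ∀ b c : Fin (k + 1), b.val + c.val ≤ k →
      2 * e 1 * P s (b + 1) c = ∑ i, a i 1 * F s i b c)
    (h2 : ∀ s, ∀ b c : Fin (k + 1), b.val + c.val ≤ k →
      2 * e 2 * P s b (c + 1) = ∑ i, a i 2 * F s i b c)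
    (hV : ∀ s i, ∀ b c : Fin (k + 1), b.val + c.val + 1 ≤ k →
      a i 0 * F s i b c + a i 1 * F s i (b + 1) c + a i 2 * F s i b (c + 1) = 0)
    (M : Fin r → ℕ × ℕ)
    (hM : ∀ s, (M s).1 + (M s).2 ≤ k + 1)
    (hne : ∀ s, P s (M s).1 (M s).2 ≠ 0)
    (hdiag : ∀ s t, s ≠ t → P s (M t).1 (M t).2 = 0) :
    r ≤ hq (stIdeal (fun i j => (a i j : K)) (diagQ fun j => (e j : K))) (k + 1) := by
  have hLM : ∀ s t, Lf (fun m => if m 0 + m 1 + m 2 = k + 1 then
      (P s (m 1) (m 2) : K) else 0)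
      (monomial (ex3 (k + 1) (M t).1 (M t).2) 1) =
        (P s (M t).1 (M t).2 : K) := by
    intro s t
    rw [Lf_monomial, one_mul, if_pos]
    · rfl
    · change k + 1 - ((M t).1 + (M t).2) + (M t).1 + (M t).2 = k + 1
      have := hM t
      omega
  apply le_hq (fun s => Lf fun m => if m 0 + m 1 + m 2 = k + 1 then
      (P s (m 1) (m 2) : K) else 0)
    (fun s => monomial (ex3 (k + 1) (M s).1 (M s).2) 1)
  · intro s
    apply isHomogeneous_monomial
    rw [Finsupp.degree_eq_sum, Fin.sum_univ_three]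
    change k + 1 - ((M s).1 + (M s).2) + (M s).1 + (M s).2 = k + 1
    have := hM s
    omega
  · intro s f hf
    apply Lf_eq_zero (fun i m => if m 0 + m 1 + m 2 = k then
      (F s i (m 1) (m 2) : K) else 0) _ _ hf
    · intro m j
      have hd : (m + Finsupp.single j 1 : Fin 3 →₀ ℕ) 0 + (m + Finsupp.single j 1 : Fin 3 →₀ ℕ) 1 +
          (m + Finsupp.single j 1 : Fin 3 →₀ ℕ) 2 = m 0 + m 1 + m 2 + 1 := by
        fin_cases j <;> simp <;> omega
      rw [hd]
      by_cases hm : m 0 + m 1 + m 2 = k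
      · rw [if_pos (by omega)]
        simp only [if_pos hm]
        have hb : m 1 < k + 1 := by omega
        have hc : m 2 < k + 1 := by omega
        have hs : m 1 + m 2 ≤ k := by omega
        fin_cases j
        · have := congrArg (Int.cast (R := K)) (h0 s ⟨m 1, hb⟩ ⟨m 2, hc⟩ hs)
          push_cast at this
          simpa using this
        · have := congrArg (Int.cast (R := K)) (h1 s ⟨m 1, hb⟩ ⟨m 2, hc⟩ hs)
          push_cast at this
          simpa using this
        · have := congrArg (Int.cast (R := K)) (h2 s ⟨m 1, hb⟩ ⟨m 2, hc⟩ hs)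
          push_cast at this
          simpa using this
      · rw [if_neg (by omega)]
        simp only [if_neg hm]
        simp
    · intro i m
      have hd : ∀ j : Fin 3,
          (m + Finsupp.single j 1 : Fin 3 →₀ ℕ) 0 + (m + Finsupp.single j 1 : Fin 3 →₀ ℕ) 1 +
          (m + Finsupp.single j 1 : Fin 3 →₀ ℕ) 2 = m 0 + m 1 + m 2 + 1 := by
        intro j
        fin_cases j <;> simp <;> omega
      simp only [hd]
      by_cases hm : m 0 + m 1 + m 2 + 1 = k
      · simp only [if_pos hm]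
        have hb : m 1 < k + 1 := by omega
        have hc : m 2 < k + 1 := by omega
        have hs : m 1 + m 2 + 1 ≤ k := by omega
        have := congrArg (Int.cast (R := K)) (hV s i ⟨m 1, hb⟩ ⟨m 2, hc⟩ hs)
        push_cast at this
        rw [Fin.sum_univ_three]
        simpa using this
      · simp only [if_neg hm]
        simp
  · intro s
    rw [hLM]
    exact_mod_cast hne s
  · intro s t hst
    rw [hLM]
    exact_mod_cast hdiag s t hst

end Pool.Agent.L5helper27.STD
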