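import Mathlib
import Pool.Agent.R833.ArrLemmas
import Pool.Agent.R833.ST3

set_option autoImplicit false

/-!
# Poincare polynomials of integral arrangements from a table of flats
-/

namespace Pool.Agent.L5helper27.STD

open Pool.Agent.R833 Pool.Agent.R833.Arr Pool.Agent.R833.ST

/-- table lookup: the `idx`-th hexadecimal digit of `M`, minus eight -/
def tb (M idx : ℕ) : ℤ := (((M >>> (4 * idx)) % 16 : ℕ) : ℤ) - 8

/-- table lookup: the `idx`-th byte of `M` -/
def tb8 (M idx : ℕ) : ℕ := (M >>> (8 * idx)) % 256

section

variable {K : Type} [Field K] {l n N : ℕ}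

/-- the subspace cut out by the members with `b i = true` -/
def cut (A : Fin n → Fin l → K) (b : Fin n → Bool) : Submodule K (Fin l → K) :=
  ⨅ i ∈ {i | b i = true}, hyperplane (A i)

lemma mem_cut {A : Fin n → Fin l → K} {b : Fin n → Bool} {v : Fin l → K} :
    v ∈ cut A b ↔ ∀ i, b i = true → ∑ j, A i j * v j = 0 := by
  unfold cut
  simp only [Set.mem_ofPred_eq, Submodule.mem_iInf, mem_hyperplane]

theorem isPoincare_of_data [CharZero K] (a : Fin n → Fin l → ℤ)
    (b : Fin N → Fin n → Bool) (V Q : Fin N → Fin l → Fin l → ℤ) (R : Fin N → Fin l → Fin n → ℤ)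
    (D : Fin N → ℤ) (nx : Fin N → Fin n → Fin N) (pv : Fin N → Fin n → Fin l)
    (T : Fin N → Fin n → Fin l → ℤ) (vis : Fin N → Fin l → Bool) (mu : Fin N → ℤ)
    (cod : Fin N → ℕ) (top : Fin N)
    (hD : ∀ x, D x ≠ 0)
    (hI : ∀ x j m, (if j = m then D x else 0) = ∑ k, V x k j * Q x k m + ∑ i, R x j i * a i m)
    (hR : ∀ x j i, b x i = false → R x j i = 0)
    (hQ : ∀ x k m, vis x m = true →
      ∑ j, Q x k j * V x m j = if k = m then D x else 0)
    (hvis : ∀ x k, vis x k = false → ∀ j, V x k j = 0)
    (hT : ∀ x i k, T x i k = ∑ j, a i j * V x k j)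
    (hT0 : ∀ x i k, b x i = true → T x i k = 0)
    (hT1 : ∀ x i, b x i = false → T x i (pv x i) ≠ 0)
    (hn0 : ∀ x i, b x i = true → nx x i = x)
    (hn1 : ∀ x i, b (nx x i) i = true)
    (hn2 : ∀ x i j, b x j = true → b (nx x i) j = true)
    (hn3 : ∀ x i j, b (nx x i) j = true → ∀ k, T x j k * T x i (pv x i) = T x j (pv x i) * T x i k)
    (hanti : ∀ x y, (∀ i, b x i = b y i) → x = y)
    (htop : ∀ i, b top i = false)
    (hmu : mu top = 1)
    (hcod : ∀ x, l - Fintype.card {k : Fin l // vis x k = true} = cod x)
    (hsum : ∀ x, x ≠ top → ∑ y, (if (∀ i, b y i = true → b x i = true) then mu y else 0) = 0) :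
    IsPoincare (fun i j => (a i j : K))
      (∑ x, Polynomial.C (mu x : ℚ) * (-Polynomial.X) ^ cod x) := by
  classical
  set A : Fin n → Fin l → K := fun i j => (a i j : K) with hA
  have hDK : ∀ x, (D x : K) ≠ 0 := fun x => by exact_mod_cast hD x
  have hTK : ∀ x i k, (T x i k : K) = ∑ j, (a i j : K) * (V x k j : K) := by
    intro x i k
    rw [hT]
    push_cast
    rfl
  -- members of the flat
  have hVmem : ∀ x k, (fun j => (V x k j : K)) ∈ cut A (b x) := by
    intro x k
    rw [mem_cut]
    intro i hi
    change ∑ j, (a i j : K) * (V x k j : K) = 0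
    rw [← hTK, hT0 x i k hi, Int.cast_zero]
  have hrep : ∀ x, ∀ v ∈ cut A (b x), ∀ j,
      (D x : K) * v j = ∑ k, (V x k j : K) * ∑ m, (Q x k m : K) * v m := by
    intro x v hv j
    rw [mem_cut] at hv
    have h1 : ∀ m, ((if j = m then D x else 0 : ℤ) : K) =
        ∑ k, (V x k j : K) * Q x k m + ∑ i, (R x j i : K) * a i m := by
      intro m
      rw [hI x j m]
      push_cast
      rfl
    have h2 : (D x : K) * v j = ∑ m, ((if j = m then D x else 0 : ℤ) : K) * v m := by
      rw [Finset.sum_eq_single j]
      · simp
      · intro m _ hm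
        rw [if_neg hm.symm]
        simp
      · simp
    rw [h2]
    simp only [h1, add_mul, Finset.sum_add_distrib]
    have h3 : ∑ m, (∑ i, (R x j i : K) * a i m) * v m = 0 := by
      have : ∑ m, (∑ i, (R x j i : K) * a i m) * v m =
          ∑ i, (R x j i : K) * ∑ m, (a i m : K) * v m := by
        simp only [Finset.mul_sum, Finset.sum_mul]
        rw [Finset.sum_comm]
        exact Finset.sum_congr rfl fun i _ => Finset.sum_congr rfl fun m _ => by ring
      rw [this]
      apply Finset.sum_eq_zero
      intro i _
      cases hb : b x i with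
      | true => rw [show ∑ m, (a i m : K) * v m = 0 from hv i hb, mul_zero]
      | false => rw [hR x j i hb, Int.cast_zero, zero_mul]
    rw [h3, add_zero]
    simp only [Finset.mul_sum, Finset.sum_mul]
    rw [Finset.sum_comm]
    exact Finset.sum_congr rfl fun i _ => Finset.sum_congr rfl fun m _ => by ring
  have hform : ∀ x, ∀ v ∈ cut A (b x), ∀ i,
      (D x : K) * ∑ j, A i j * v j = ∑ k, (T x i k : K) * ∑ m, (Q x k m : K) * v m := by
    intro x v hv i
    simp only [hTK]
    rw [Finset.mul_sum]
    have : ∀ j, (D x : K) * (A i j * v j) =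
        (a i j : K) * ∑ k, (V x k j : K) * ∑ m, (Q x k m : K) * v m := by
      intro j
      rw [← hrep x v hv j]
      change (D x : K) * ((a i j : K) * v j) = _
      ring
    simp only [this]
    simp only [Finset.mul_sum, Finset.sum_mul]
    rw [Finset.sum_comm]
    refine Finset.sum_congr rfl fun k _ => ?_
    rw [Finset.sum_comm]
    exact Finset.sum_congr rfl fun j _ => Finset.sum_congr rfl fun m _ => by ring
  -- intersection with one more hyperplane
  have hnext : ∀ x i, cut A (b (nx x i)) = cut A (b x) ⊓ hyperplane (A i) := by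
    intro x i
    cases hb : b x i with
    | true =>
      rw [hn0 x i hb]
      symm
      rw [inf_eq_left]
      intro v hv
      rw [mem_hyperplane]
      exact mem_cut.1 hv i hb
    | false =>
      apply le_antisymm
      · intro v hv
        rw [mem_cut] at hv
        refine ⟨mem_cut.2 fun j hj => hv j (hn2 x i j hj), ?_⟩
        rw [SetLike.mem_coe, mem_hyperplane]
        exact hv i (hn1 x i)
      · rintro v ⟨hv, hvi⟩
        rw [SetLike.mem_coe, mem_hyperplane] at hvi
        rw [mem_cut]
        intro j hj
        have h1 := hform x v hv j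
        have h2 := hform x v hv i
        rw [hvi, mul_zero] at h2
        have h3 : (T x i (pv x i) : K) ≠ 0 := by exact_mod_cast hT1 x i hb
        have h4 : (T x i (pv x i) : K) * ((D x : K) * ∑ m, A j m * v m) = 0 := by
          rw [h1, Finset.mul_sum]
          have h5 : ∀ k, (T x i (pv x i) : K) * ((T x j k : K) * ∑ m, (Q x k m : K) * v m) =
              (T x j (pv x i) : K) * ((T x i k : K) * ∑ m, (Q x k m : K) * v m) := by
            intro k
            have h6 : (T x j k : K) * T x i (pv x i) = T x j (pv x i) * T x i k := by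
              exact_mod_cast hn3 x i j hj k
            linear_combination (∑ m, (Q x k m : K) * v m) * h6
          rw [Finset.sum_congr rfl fun k _ => h5 k, ← Finset.mul_sum, ← h2, mul_zero]
        exact (mul_eq_zero.1 ((mul_eq_zero.1 h4).resolve_left h3)).resolve_left (hDK x)
  have htopcut : cut A (b top) = ⊤ := by
    rw [eq_top_iff]
    intro v _
    rw [mem_cut]
    intro i hi
    rw [htop i] at hi
    exact absurd hi (by decide)
  have hle : ∀ x y, cut A (b x) ≤ cut A (b y) ↔
      (decide (∀ i, b y i = true → b x i = true)) = true := by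
    intro x y
    rw [decide_eq_true_iff]
    constructor
    · intro h i hi
      by_contra hc
      rw [Bool.not_eq_true] at hc
      have h1 := mem_cut.1 (h (hVmem x (pv x i))) i hi
      apply hT1 x i hc
      have h2 : (T x i (pv x i) : K) = 0 := by
        rw [hTK]
        exact h1
      exact_mod_cast h2
    · intro h v hv
      rw [mem_cut] at hv ⊢
      exact fun i hi => hv i (h i hi)
  have hfin : ∀ x, Module.finrank K (cut A (b x)) = Fintype.card {k : Fin l // vis x k = true} := by
    intro x
    let f : {k : Fin l // vis x k = true} → (Fin l → K) := fun k j => (V x k.1 j : K)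
    have hli : LinearIndependent K f := by
      rw [Fintype.linearIndependent_iff]
      intro g hg k
      have h1 : ∑ j, (Q x k.1 j : K) * (∑ m, g m • f m) j = 0 := by
        rw [hg]
        simp
      have h2 : ∑ j, (Q x k.1 j : K) * (∑ m, g m • f m) j = g k * D x := by
        simp only [Finset.sum_apply, Pi.smul_apply, smul_eq_mul]
        have h3 : ∀ m : {k : Fin l // vis x k = true},
            ∑ j, (Q x k.1 j : K) * (V x m.1 j : K) = if k = m then (D x : K) else 0 := by
          intro m
          have := hQ x k.1 m.1 m.2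
          have h4 := congrArg (Int.cast (R := K)) this
          push_cast at h4
          rw [h4]
          by_cases hkm : k = m
          · rw [if_pos hkm, if_pos (congrArg Subtype.val hkm)]
          · rw [if_neg hkm, if_neg fun h => hkm (Subtype.ext h)]
        simp only [Finset.mul_sum]
        rw [Finset.sum_comm]
        have h5 : ∀ m : {k : Fin l // vis x k = true},
            ∑ j, (Q x k.1 j : K) * (g m * f m j) = g m * if k = m then (D x : K) else 0 := by
          intro m
          rw [← h3 m, Finset.mul_sum]
          exact Finset.sum_congr rfl fun j _ => by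
            change _ * (g m * (V x m.1 j : K)) = _
            ring
        rw [Finset.sum_congr rfl fun m _ => h5 m]
        simp
      rw [h2] at h1
      exact (mul_eq_zero.1 h1).resolve_right (hDK x)
    have hspan : cut A (b x) = Submodule.span K (Set.range f) := by
      apply le_antisymm
      · intro v hv
        have h1 : v = (D x : K)⁻¹ • ∑ k, (∑ m, (Q x k m : K) * v m) • (fun j => (V x k j : K)) := by
          funext j
          rw [Pi.smul_apply, smul_eq_mul, eq_inv_mul_iff_mul_eq₀ (hDK x), hrep x v hv j]
          simp only [Finset.sum_apply, Pi.smul_apply, smul_eq_mul]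
          exact Finset.sum_congr rfl fun k _ => by ring
        rw [h1]
        apply Submodule.smul_mem
        apply Submodule.sum_mem
        intro k _
        apply Submodule.smul_mem
        cases hk : vis x k with
        | true => exact Submodule.subset_span ⟨⟨k, hk⟩, rfl⟩
        | false =>
          have : (fun j => (V x k j : K)) = 0 := by
            funext j
            rw [hvis x k hk j]
            simp
          rw [this]
          exact Submodule.zero_mem _
      · rw [Submodule.span_le]
        rintro _ ⟨k, rfl⟩
        exact hVmem x k.1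
    rw [hspan, finrank_span_eq_card hli]
  apply isPoincare_of (ι := Fin N) (fun x => cut A (b x)) (fun x => ⟨{i | b x i = true}, rfl⟩)
    ?_ (fun x y => decide (∀ i, b y i = true → b x i = true)) hle
  · intro x y hxy hyx
    rw [decide_eq_true_iff] at hxy hyx
    apply hanti
    intro i
    cases hx : b x i with
    | true => exact (hyx i hx).symm
    | false =>
      cases hy : b y i with
      | false => rfl
      | true =>
        rw [hxy i hy] at hx
        exact absurd hx (by decide)
  · exact htopcut
  · rw [hmu, Int.cast_one]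
  · intro x
    rw [hfin, hcod]
  · intro x hx
    have := congrArg (Int.cast (R := ℚ)) (hsum x hx)
    rw [Int.cast_sum, Int.cast_zero] at this
    refine Eq.trans (Finset.sum_congr rfl fun y _ => ?_) this
    by_cases h : ∀ i, b y i = true → b x i = true
    · rw [if_pos h, if_pos (decide_eq_true h)]
    · rw [if_neg h, if_neg (by rw [decide_eq_true_iff]; exact h), Int.cast_zero]
  · rintro X ⟨s, rfl⟩
    have hs : ∀ t : Finset (Fin n), ∃ x, cut A (b x) = ⨅ i ∈ t, hyperplane (A i) := by
      intro t
      induction t using Finset.induction_on with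
      | empty => exact ⟨top, by rw [htopcut]; simp⟩
      | insert i t hi ih =>
        obtain ⟨x, hx⟩ := ih
        refine ⟨nx x i, ?_⟩
        rw [hnext, hx, Finset.iInf_insert, inf_comm]
    obtain ⟨x, hx⟩ := hs s.toFinset
    refine ⟨x, ?_⟩
    rw [hx]
    simp

lemma sum_by_cod (mu : Fin N → ℤ) (cod : Fin N → ℕ) (r : ℕ) (h : ∀ x, cod x < r) :
    ∑ x, Polynomial.C (mu x : ℚ) * (-Polynomial.X) ^ cod x =
      ∑ c ∈ Finset.range r, Polynomial.C ((∑ x, (if cod x = c then mu x else 0) : ℤ) : ℚ) *
        (-Polynomial.X) ^ c := by
  have h1 : ∀ c, Polynomial.C ((∑ x, (if cod x = c then mu x else 0) : ℤ) : ℚ) *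
      (-Polynomial.X) ^ c = ∑ x, (if cod x = c then Polynomial.C (mu x : ℚ) *
        (-Polynomial.X) ^ cod x else 0) := by
    intro c
    rw [Int.cast_sum, map_sum, Finset.sum_mul]
    refine Finset.sum_congr rfl fun x _ => ?_
    by_cases hc : cod x = c
    · rw [if_pos hc, if_pos hc, hc]
    · rw [if_neg hc, if_neg hc, Int.cast_zero, map_zero, zero_mul]
  rw [Finset.sum_congr rfl fun c _ => h1 c, Finset.sum_comm]
  refine Finset.sum_congr rfl fun x _ => ?_
  rw [Finset.sum_ite_eq, if_pos (Finset.mem_range.2 (h x))]

end

end Pool.Agent.L5helper27.STD
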