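import Mathlib
import Pool.Agent.L5helper27.STD.Flats

set_option autoImplicit false
set_option maxRecDepth 100000

/-!
# The flats of the arrangement `FlatsB`
-/

namespace Pool.Agent.L5helper27.STD.FlatsB

open Pool.Agent.R833 Pool.Agent.R833.Arr Pool.Agent.R833.ST Pool.Agent.L5helper27.STD

/-- the forms -/
def a : Fin 7 → Fin 3 → ℤ :=
  ![![1, 0, 0], ![0, 1, 0], ![0, 0, 1], ![1, 0, -1], ![1, -1, 0], ![0, 1, 1], ![2, -1, -1]]

def b (x : Fin 20) (i : Fin 7) : Bool := Nat.testBit 1391218228365117238080494601725566534058112 (7 * x.val + i.val)

def V (x : Fin 20) (k j : Fin 3) : ℤ :=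
  tb 2941681206987726559602304728847835053396229347577021855256271293024110426151629034270255516194964121578737131801901987953852585633281628887482062830907230672668031673630548689927042320052203502208665656293663709956233 ((3 * x.val + k.val) * 3 + j.val)

def Q (x : Fin 20) (k j : Fin 3) : ℤ :=
  tb 2941681206987726559620992485617326625943687060555457144784914228322861834481472897262637997357740307101296542019978123666433118634241791225230286151315578272046556390691706869232465513015966871037874670091249423845513 ((3 * x.val + k.val) * 3 + j.val)

def R (x : Fin 20) (j : Fin 3) (i : Fin 7) : ℤ :=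
  tb 28667658345205667683904816717502337508554505401163100869085904435166622249015081716602710418959753699308834398625071692012047513726965845219664276414525555557258777488812125026560391964809622707061848119751892606530827010020872305459832622656035940850326260724053606784179408330139594704281939640911804213050086276062741754463545036249374825814950783269675122794066597607566396282035855509478377283709345014803134931150714820620628671000116563324178798872262756405481271137886731029153324356575526813993096 ((3 * x.val + j.val) * 7 + i.val)

def D (x : Fin 20) : ℤ := tb 725375091434356089657753 x.val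

def T (x : Fin 20) (i : Fin 7) (k : Fin 3) : ℤ :=
  tb 28667607083529552521085314517959862260699745152046558854708133865338635804539192234664044263869452108739906940496894378932684576264797859343845501329742989075855080606416042952551582272870215368769404382070150380047721993741805336269830453396738811471877498284068439034434545100065215733650310264654189324474545949439452021497594940413813375224749538957681144923133133240179558347388583938652397992377834208426395940112176214719426441851522682023138150492371421210099394870194241349366367088639590393284745 ((7 * x.val + i.val) * 3 + k.val)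

def nx (x : Fin 20) (i : Fin 7) : Fin 20 :=
  ⟨tb8 1061227667824834803520767432503522112359793596164183867897426886710367403136666164444262068067036382179337629322513187361455115974769353197907172461087964477166673282925108975823367903031143353192302575333281560500265185464798346019690077493877582330339594504361914939952369301910299934787536398886272542988878532617080569320566224519681 (7 * x.val + i.val) % 20, Nat.mod_lt _ (by decide)⟩

def pv (x : Fin 20) (i : Fin 7) : Fin 3 :=
  ⟨((25711008809911126776108749988748129539241897822158093143769616 >>> (4 * (7 * x.val + i.val))) % 16) % 3, Nat.mod_lt _ (by decide)⟩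

def mu (x : Fin 20) : ℤ := (tb8 309763122423554344100913815560693830532703665985 x.val : ℤ) - 64

def cod (x : Fin 20) : ℕ := (236747973007864593715472 >>> (4 * x.val)) % 16

def vis (x : Fin 20) (k : Fin 3) : Bool := decide (k.val + cod x < 3)

lemma hD : ∀ x, D x ≠ 0 := by decide +kernel

lemma hI : ∀ x j m, (if j = m then D x else 0) =
    ∑ k, V x k j * Q x k m + ∑ i, R x j i * a i m := by decide +kernel

lemma hR : ∀ x j i, b x i = false → R x j i = 0 := by decide +kernel

lemma hQ : ∀ x k m, vis x m = true →
    ∑ j, Q x k j * V x m j = if k = m then D x else 0 := by decide +kernel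

lemma hvis : ∀ x k, vis x k = false → ∀ j, V x k j = 0 := by decide +kernel

lemma hT : ∀ x i k, T x i k = ∑ j, a i j * V x k j := by decide +kernel

lemma hT0 : ∀ x i k, b x i = true → T x i k = 0 := by decide +kernel

lemma hT1 : ∀ x i, b x i = false → T x i (pv x i) ≠ 0 := by decide +kernel

lemma hn0 : ∀ x i, b x i = true → nx x i = x := by decide +kernel

lemma hn1 : ∀ x i, b (nx x i) i = true := by decide +kernel

lemma hn2 : ∀ x i j, b x j = true → b (nx x i) j = true := by decide +kernel

lemma hn3 : ∀ x i j, b (nx x i) j = true →
    ∀ k, T x j k * T x i (pv x i) = T x j (pv x i) * T x i k := by decide +kernel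

lemma hanti : ∀ x y, (∀ i, b x i = b y i) → x = y := by decide +kernel

lemma htop : ∀ i, b 0 i = false := by decide +kernel

lemma hmu : mu 0 = 1 := by decide +kernel

lemma hcod : ∀ x, 3 - Fintype.card {k : Fin 3 // vis x k = true} = cod x := by
  decide +kernel

lemma hsum : ∀ x, x ≠ 0 →
    ∑ y, (if (∀ i, b y i = true → b x i = true) then mu y else 0) = 0 := by decide +kernel

lemma hcodlt : ∀ x, cod x < 4 := by decide +kernel

lemma hs0 : ∑ x, (if cod x = 0 then mu x else 0) = 1 := by decide +kernel

lemma hs1 : ∑ x, (if cod x = 1 then mu x else 0) = -7 := by decide +kernel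

lemma hs2 : ∑ x, (if cod x = 2 then mu x else 0) = 16 := by decide +kernel

lemma hs3 : ∑ x, (if cod x = 3 then mu x else 0) = -10 := by decide +kernel

theorem isPoincare (K : Type) [Field K] [CharZero K] :
    IsPoincare (fun i j => (a i j : K))
      (1 + 7 * Polynomial.X ^ 1 + 16 * Polynomial.X ^ 2 + 10 * Polynomial.X ^ 3 : Polynomial ℚ) := by
  have h := isPoincare_of_data (K := K) a b V Q R D nx pv T vis mu cod 0 hD hI hR hQ hvis hT hT0 hT1
    hn0 hn1 hn2 hn3 hanti htop hmu hcod hsum
  have h2 : ∑ x, Polynomial.C (mu x : ℚ) * (-Polynomial.X) ^ cod x =
      (1 + 7 * Polynomial.X ^ 1 + 16 * Polynomial.X ^ 2 + 10 * Polynomial.X ^ 3 : Polynomial ℚ) := by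
    rw [sum_by_cod mu cod 4 hcodlt]
    simp only [Finset.sum_range_succ, Finset.sum_range_zero, hs0, hs1, hs2, hs3]
    simp only [Int.cast_ofNat, Int.cast_neg, Int.cast_one, map_neg, map_ofNat, map_one]
    ring
  rw [h2] at h
  exact h

end Pool.Agent.L5helper27.STD.FlatsB
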