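import Mathlib
import Pool.Agent.L5helper27.STD.Cert
import Pool.Agent.L5helper27.STD.FlatsB

set_option autoImplicit false
set_option maxRecDepth 100000

/-!
# Lower bounds of the Hilbert function, `CertB`
-/

namespace Pool.Agent.L5helper27.STD.FlatsB

open MvPolynomial Pool.Agent.R833 Pool.Agent.R833.Arr Pool.Agent.R833.HF Pool.Agent.R833.ST

/-- the coefficients of the quadratic form -/
def e : Fin 3 → ℤ := ![2, 1, 1]

namespace c1

def P (s : Fin 3) (b c : ℕ) : ℤ :=
  tc 0x818080808180808081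
    (s.val * 3 + ((b + c) * (b + c + 1) / 2 + c))

def F (s : Fin 3) (i : Fin 7) (b c : ℕ) : ℤ :=
  tc 0x808080808280808080808080828080808080808084
    ((s.val * 7 + i.val) * 1 + ((b + c) * (b + c + 1) / 2 + c))

def M : Fin 3 → ℕ × ℕ := ![(0, 0), (1, 0), (0, 1)]

lemma h0 : ∀ s, ∀ b c : Fin (0 + 1), b.val + c.val ≤ 0 →
    2 * e 0 * P s b c = ∑ i, a i 0 * F s i b c := by decide +kernel

lemma h1 : ∀ s, ∀ b c : Fin (0 + 1), b.val + c.val ≤ 0 →
    2 * e 1 * P s (b + 1) c = ∑ i, a i 1 * F s i b c := by decide +kernel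

lemma h2 : ∀ s, ∀ b c : Fin (0 + 1), b.val + c.val ≤ 0 →
    2 * e 2 * P s b (c + 1) = ∑ i, a i 2 * F s i b c := by decide +kernel

lemma hV : ∀ s i, ∀ b c : Fin (0 + 1), b.val + c.val + 1 ≤ 0 →
    a i 0 * F s i b c + a i 1 * F s i (b + 1) c + a i 2 * F s i b (c + 1) = 0 := by
  decide +kernel

lemma hM : ∀ s, (M s).1 + (M s).2 ≤ 0 + 1 := by decide +kernel

lemma hne : ∀ s, P s (M s).1 (M s).2 ≠ 0 := by decide +kernel

lemma hdiag : ∀ s t, s ≠ t → P s (M t).1 (M t).2 = 0 := by decide +kernel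

end c1

lemma le1 (K : Type) [Field K] [CharZero K] :
    3 ≤ hq (stIdeal (fun i j => (a i j : K)) (diagQ fun j => (e j : K))) (0 + 1) :=
  cert3 a e 0 3 c1.P c1.F c1.h0 c1.h1 c1.h2 c1.hV c1.M c1.hM
    c1.hne c1.hdiag

namespace c2

def P (s : Fin 5) (b c : ℕ) : ℤ :=
  tc 0x82808080807f80818080808080808280807f808080818080808080808180
    (s.val * 6 + ((b + c) * (b + c + 1) / 2 + c))

def F (s : Fin 5) (i : Fin 7) (b c : ℕ) : ℤ :=
  tc 0x8080808080808080807c807c80807c808080848080808080808080808080808080808280828080808080808080808080807c7c80808080808080807c808480808080808080808080808080808082808080848080808080808080808080808080808080808082808480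
    ((s.val * 7 + i.val) * 3 + ((b + c) * (b + c + 1) / 2 + c))

def M : Fin 5 → ℕ × ℕ := ![(1, 0), (0, 1), (2, 0), (1, 1), (0, 2)]

lemma h0 : ∀ s, ∀ b c : Fin (1 + 1), b.val + c.val ≤ 1 →
    2 * e 0 * P s b c = ∑ i, a i 0 * F s i b c := by decide +kernel

lemma h1 : ∀ s, ∀ b c : Fin (1 + 1), b.val + c.val ≤ 1 →
    2 * e 1 * P s (b + 1) c = ∑ i, a i 1 * F s i b c := by decide +kernel

lemma h2 : ∀ s, ∀ b c : Fin (1 + 1), b.val + c.val ≤ 1 →
    2 * e 2 * P s b (c + 1) = ∑ i, a i 2 * F s i b c := by decide +kernel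

lemma hV : ∀ s i, ∀ b c : Fin (1 + 1), b.val + c.val + 1 ≤ 1 →
    a i 0 * F s i b c + a i 1 * F s i (b + 1) c + a i 2 * F s i b (c + 1) = 0 := by
  decide +kernel

lemma hM : ∀ s, (M s).1 + (M s).2 ≤ 1 + 1 := by decide +kernel

lemma hne : ∀ s, P s (M s).1 (M s).2 ≠ 0 := by decide +kernel

lemma hdiag : ∀ s t, s ≠ t → P s (M t).1 (M t).2 = 0 := by decide +kernel

end c2

lemma le2 (K : Type) [Field K] [CharZero K] :
    5 ≤ hq (stIdeal (fun i j => (a i j : K)) (diagQ fun j => (e j : K))) (1 + 1) :=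
  cert3 a e 1 5 c2.P c2.F c2.h0 c2.h1 c2.h2 c2.hV c2.M c2.hM
    c2.hne c2.hdiag

namespace c3

def P (s : Fin 7) (b c : ℕ) : ℤ :=
  tc 0x828080808080807f808080828080808080807f80808082808080807f808080808082808080807f808080808082808080807f808080808081808080808080808080808280807f
    (s.val * 10 + ((b + c) * (b + c + 1) / 2 + c))

def F (s : Fin 7) (i : Fin 7) (b c : ℕ) : ℤ :=
  tc 0x808080808080827e827e8280807e827e82827e7e807e7e7e80807e807c7c7e808080808282847e808080808080808080808080808080808080808080807c80807c80808080807c8084808080807e808480808080808080808080808080808080807c807c808080808080808080808480807e8080807c8080808480808080808080808080827e82827e80807e7e7e7e7e827e80827e8280807e8080827e80807c807c7e84828080808080808080807e827e827e8080827e827e7e7e82807e827e80808280847e82808080807e8a7c828080808080808080808080808080808080808080808080808080808080808082808080808280808084808080808080808080807e827e7e828080827e827e7e7e82807e827e80808280807e82808084807e827c8a808080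
    ((s.val * 7 + i.val) * 6 + ((b + c) * (b + c + 1) / 2 + c))

def M : Fin 7 → ℕ × ℕ := ![(2, 0), (1, 1), (0, 2), (3, 0), (2, 1), (1, 2), (0, 3)]

lemma h0 : ∀ s, ∀ b c : Fin (2 + 1), b.val + c.val ≤ 2 →
    2 * e 0 * P s b c = ∑ i, a i 0 * F s i b c := by decide +kernel

lemma h1 : ∀ s, ∀ b c : Fin (2 + 1), b.val + c.val ≤ 2 →
    2 * e 1 * P s (b + 1) c = ∑ i, a i 1 * F s i b c := by decide +kernel

lemma h2 : ∀ s, ∀ b c : Fin (2 + 1), b.val + c.val ≤ 2 →
    2 * e 2 * P s b (c + 1) = ∑ i, a i 2 * F s i b c := by decide +kernel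

lemma hV : ∀ s i, ∀ b c : Fin (2 + 1), b.val + c.val + 1 ≤ 2 →
    a i 0 * F s i b c + a i 1 * F s i (b + 1) c + a i 2 * F s i b (c + 1) = 0 := by
  decide +kernel

lemma hM : ∀ s, (M s).1 + (M s).2 ≤ 2 + 1 := by decide +kernel

lemma hne : ∀ s, P s (M s).1 (M s).2 ≠ 0 := by decide +kernel

lemma hdiag : ∀ s t, s ≠ t → P s (M t).1 (M t).2 = 0 := by decide +kernel

end c3

lemma le3 (K : Type) [Field K] [CharZero K] :
    7 ≤ hq (stIdeal (fun i j => (a i j : K)) (diagQ fun j => (e j : K))) (2 + 1) :=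
  cert3 a e 2 7 c3.P c3.F c3.h0 c3.h1 c3.h2 c3.hV c3.M c3.hM
    c3.hne c3.hdiag

namespace c7

def P (s : Fin 1) (b c : ℕ) : ℤ :=
  tcc 0x801f7fe77ff7800f800f7ff77fe7801f80037ff38003800380037ff380037ff580057ffd7ffd80057ff57ffd80057ffd80057ffd80077fff7fff800780037ffb80037ffd7ffd7ffd
    (s.val * 36 + ((b + c) * (b + c + 1) / 2 + c))

def F (s : Fin 1) (i : Fin 7) (b c : ℕ) : ℤ :=
  tcc 0x8000800080407fa0804080008000800080207ff07ff080208000801080087ff080088010800c7ffc7ffc800c80047ffc800480008000800080387fc880387fc880387fc880388000800080008000800080007ff4800c7ff4800c7ff48000800080008000800c7ff4800c80008000800080007fda7fda800a800a7ffa7ffa7fda7fda800a800a7ffa7ffa7fda800a800a7ffa7ffa800a800a7ffa7ffa800a7ffa7ffa7ffa7ffa7ffa7ffa7ffa800a800a7fda7fda80007ffa7ffa800a800a7fda7fda7ffa7ffa800a800a7fda7ffa7ffa800a800a7ffa7ffa800a7ffa7ffa7ffa8000800080008000800080007f96800080008000800080007fc080008000800080008000800080008000802080008000800080007ff07ff47f968000800080008000800080007fc0800080008000800080008000800080008000800080208000800080008000800080007ff080007ff480127ff87fa880b87fa87ff88012800080008000800080008000800080008000800080008000800080008000800080008000800080008000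
    ((s.val * 7 + i.val) * 28 + ((b + c) * (b + c + 1) / 2 + c))

def M : Fin 1 → ℕ × ℕ := ![(0, 7)]

lemma h0 : ∀ s, ∀ b c : Fin (6 + 1), b.val + c.val ≤ 6 →
    2 * e 0 * P s b c = ∑ i, a i 0 * F s i b c := by decide +kernel

lemma h1 : ∀ s, ∀ b c : Fin (6 + 1), b.val + c.val ≤ 6 →
    2 * e 1 * P s (b + 1) c = ∑ i, a i 1 * F s i b c := by decide +kernel

lemma h2 : ∀ s, ∀ b c : Fin (6 + 1), b.val + c.val ≤ 6 →
    2 * e 2 * P s b (c + 1) = ∑ i, a i 2 * F s i b c := by decide +kernel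

lemma hV : ∀ s i, ∀ b c : Fin (6 + 1), b.val + c.val + 1 ≤ 6 →
    a i 0 * F s i b c + a i 1 * F s i (b + 1) c + a i 2 * F s i b (c + 1) = 0 := by
  decide +kernel

lemma hM : ∀ s, (M s).1 + (M s).2 ≤ 6 + 1 := by decide +kernel

lemma hne : ∀ s, P s (M s).1 (M s).2 ≠ 0 := by decide +kernel

lemma hdiag : ∀ s t, s ≠ t → P s (M t).1 (M t).2 = 0 := by decide +kernel

end c7

lemma le7 (K : Type) [Field K] [CharZero K] :
    1 ≤ hq (stIdeal (fun i j => (a i j : K)) (diagQ fun j => (e j : K))) (6 + 1) :=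
  cert3 a e 6 1 c7.P c7.F c7.h0 c7.h1 c7.h2 c7.hV c7.M c7.hM
    c7.hne c7.hdiag

end Pool.Agent.L5helper27.STD.FlatsB
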