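import Mathlib
import Pool.Agent.L5helper27.STD.Fun

set_option autoImplicit false

/-!
# Positive rational diagonal forms are non-degenerate on rational subspaces
-/

namespace Pool.Agent.L5helper27.STD

open MvPolynomial Pool.Agent.R833 Pool.Agent.R833.Arr Pool.Agent.R833.HF Pool.Agent.R833.ST

variable {K : Type} [Field K] {l n : ℕ}

/-- the forms are combinations of the values of the Gram matrix -/
lemma gram_rat (a : Fin n → Fin l → ℚ) (d : Fin l → ℚ) (hd : ∀ j, 0 < d j) (j : Fin l) :
    ∃ c : Fin n → ℚ, ∀ k, a k j = ∑ i, c i * ∑ m, a i m * d m * a k m := by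
  -- components of the Gram map
  let f : Fin n → (Fin n → ℚ) →ₗ[ℚ] ℚ := fun i =>
    ∑ k, (∑ m, a i m * d m * a k m) • LinearMap.proj k
  let g : (Fin n → ℚ) →ₗ[ℚ] ℚ := ∑ k, a k j • LinearMap.proj k
  have hf : ∀ i x, f i x = ∑ k, (∑ m, a i m * d m * a k m) * x k := by
    intro i x
    simp [f]
  have hg : ∀ x, g x = ∑ k, a k j * x k := by
    intro x
    simp [g]
  have hker : ⨅ i, LinearMap.ker (f i) ≤ LinearMap.ker g := by
    intro x hx
    rw [Submodule.mem_iInf] at hx
    rw [LinearMap.mem_ker, hg]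
    have h1 : ∑ m, d m * (∑ k, a k m * x k) ^ 2 = 0 := by
      have h2 : ∑ m, d m * (∑ k, a k m * x k) ^ 2 = ∑ i, x i * f i x := by
        simp only [hf, sq, Finset.mul_sum, Finset.sum_mul]
        rw [Finset.sum_comm]
        refine Finset.sum_congr rfl fun i _ => ?_
        rw [Finset.sum_comm]
        refine Finset.sum_congr rfl fun k _ => ?_
        refine Finset.sum_congr rfl fun m _ => ?_
        ring
      rw [h2]
      apply Finset.sum_eq_zero
      intro i _
      rw [LinearMap.mem_ker.1 (hx i), mul_zero]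
    have h3 := (Finset.sum_eq_zero_iff_of_nonneg (fun m _ => by
      have := hd m
      positivity)).1 h1 j (Finset.mem_univ j)
    have h4 := (mul_eq_zero.1 h3).resolve_left (hd j).ne'
    exact pow_eq_zero_iff (two_ne_zero) |>.1 h4
  have hs := mem_span_of_iInf_ker_le_ker hker
  obtain ⟨c, hc⟩ := (Submodule.mem_span_range_iff_exists_fun ℚ).1 hs
  refine ⟨c, fun k => ?_⟩
  have h1 := congrArg (fun u => u (Pi.single k 1)) hc
  simp only [LinearMap.sum_apply, LinearMap.smul_apply, smul_eq_mul, hf, hg] at h1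
  simp only [Pi.single_apply, mul_ite, mul_one, mul_zero, Finset.sum_ite_eq', Finset.mem_univ,
    if_true] at h1
  rw [← h1]

theorem nondeg [CharZero K] (a : Fin n → Fin l → ℚ) (e : Fin l → ℚ) (he : ∀ j, 0 < e j)
    {W : Submodule K (Fin l → K)} (hW : ∀ w, w ∈ W ↔ ∀ i, ∑ j, (a i j : K) * w j = 0) :
    NonDegenerateOn (diagQ fun j => (e j : K)) W := by
  intro w hw hu
  have heK : ∀ j, (e j : K) ≠ 0 := fun j => by exact_mod_cast (he j).ne'
  -- the derivatives
  have hpd : ∀ j, eval w (pderiv j (diagQ fun j => (e j : K))) = 2 * (e j : K) * w j := by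
    intro j
    rw [der_diagQ, map_sum, Finset.sum_eq_single j]
    · simp
    · intro k _ hk
      rw [pderiv_X, Pi.single_eq_of_ne hk]
      simp
    · simp
  simp only [hpd] at hu
  -- the functional given by `w`
  let L : Fin n → (Fin l → K) →ₗ[K] K := fun i => ∑ j, (a i j : K) • LinearMap.proj j
  let B : (Fin l → K) →ₗ[K] K := ∑ j, ((e j : K) * w j) • LinearMap.proj j
  have hL : ∀ i x, L i x = ∑ j, (a i j : K) * x j := by
    intro i x
    simp [L]
  have hB : ∀ x, B x = ∑ j, (e j : K) * w j * x j := by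
    intro x
    simp [B]
  have hker : ⨅ i, LinearMap.ker (L i) ≤ LinearMap.ker B := by
    intro x hx
    rw [Submodule.mem_iInf] at hx
    have hx' : x ∈ W := (hW x).2 fun i => by rw [← hL]; exact hx i
    have h1 := hu x hx'
    rw [LinearMap.mem_ker, hB]
    have h2 : (2 : K) * ∑ j, (e j : K) * w j * x j = 0 := by
      rw [Finset.mul_sum, ← h1]
      exact Finset.sum_congr rfl fun j _ => by ring
    exact (mul_eq_zero.1 h2).resolve_left two_ne_zero
  have hs := mem_span_of_iInf_ker_le_ker hker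
  obtain ⟨c, hc⟩ := (Submodule.mem_span_range_iff_exists_fun K).1 hs
  have h1 : ∀ j, (e j : K) * w j = ∑ i, c i * (a i j : K) := by
    intro j
    have h2 := congrArg (fun u => u (Pi.single j 1)) hc
    simp only [LinearMap.sum_apply, LinearMap.smul_apply, smul_eq_mul, hL, hB] at h2
    simp only [Pi.single_apply, mul_ite, mul_one, mul_zero, Finset.sum_ite_eq',
      Finset.mem_univ, if_true] at h2
    rw [← h2]
  -- the Gram matrix kills `c`
  have hgram : ∀ i, ∑ k, (∑ m, (a i m : K) * ((e m)⁻¹ : ℚ) * a k m) * c k = 0 := by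
    intro i
    rw [← (hW w).1 hw i]
    have h2 : ∀ j, w j = ((e j)⁻¹ : ℚ) * ∑ k, c k * (a k j : K) := by
      intro j
      rw [← h1, Rat.cast_inv, inv_mul_cancel_left₀ (heK j)]
    simp only [Finset.sum_mul]
    rw [Finset.sum_comm]
    refine Finset.sum_congr rfl fun m _ => ?_
    conv_rhs => rw [h2 m]
    rw [Finset.mul_sum, Finset.mul_sum]
    exact Finset.sum_congr rfl fun k _ => by ring
  funext j
  apply mul_left_cancel₀ (heK j)
  rw [Pi.zero_apply, mul_zero, h1]
  obtain ⟨C', hC'⟩ := gram_rat a (fun m => (e m)⁻¹) (fun m => inv_pos.2 (he m)) j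
  have h3 : ∀ k, (a k j : K) = ∑ i, (C' i : K) * ∑ m, (a i m : K) * ((e m)⁻¹ : ℚ) * a k m := by
    intro k
    have := congrArg (Rat.cast (K := K)) (hC' k)
    rw [this]
    push_cast
    rfl
  have h4 : ∑ i, (C' i : K) * ∑ k, (∑ m, (a i m : K) * ((e m)⁻¹ : ℚ) * a k m) * c k = 0 :=
    Finset.sum_eq_zero fun i _ => by rw [hgram i, mul_zero]
  rw [← h4]
  simp only [h3]
  simp only [Finset.mul_sum, Finset.sum_mul]
  rw [Finset.sum_comm]
  refine Finset.sum_congr rfl fun i _ => Finset.sum_congr rfl fun k _ =>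
    Finset.sum_congr rfl fun m _ => ?_
  ring

/-- all flats of a rational arrangement -/
theorem nondeg_flats [CharZero K] {A : Fin n → Fin l → K} (a : Fin n → Fin l → ℚ)
    (ha : ∀ i j, A i j = (a i j : K)) (e : Fin l → ℚ) (he : ∀ j, 0 < e j) :
    ∀ W ∈ flats A, NonDegenerateOn (diagQ fun j => (e j : K)) W := by
  classical
  rintro W ⟨s, rfl⟩
  apply nondeg (fun i j => if i ∈ s then a i j else 0) e he
  intro w
  rw [Submodule.mem_iInf]
  refine forall_congr' fun i => ?_
  by_cases hi : i ∈ s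
  · simp only [hi, iInf_pos, if_true, mem_hyperplane, ha]
  · simp [hi]

end Pool.Agent.L5helper27.STD
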