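import Mathlib
import Pool.Agent.L5helper27.STD.CertA
import Pool.Agent.L5helper27.STD.CertB
import Pool.Agent.L5helper27.STD.Gram
import Pool.Agent.Results.MP_1e7c4a_ag.HilbertWithoutPoincare

set_option autoImplicit false

/-!
# Assembly
-/

namespace Pool.Agent.L5helper27.STD

open MvPolynomial Pool.Agent.R833 Pool.Agent.R833.Arr Pool.Agent.R833.HF Pool.Agent.R833.ST
open Pool.Agent.Results.MP_1e7c4a_ag.HilbertWithoutPoincare (IsGeneric IsHilbertSeries
  IsRestriction restrictPoly)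

variable {K : Type} [Field K]

section general

variable {l n : ℕ}

lemma hyperplane_inj [CharZero K] {u v : Fin l → ℤ} (h : ∃ p q, u p * v q ≠ u q * v p) :
    hyperplane (fun j => (u j : K)) ≠ hyperplane fun j => (v j : K) := by
  obtain ⟨p, q, hpq⟩ := h
  intro he
  have h1 : (Pi.single p (u q : K) - Pi.single q (u p : K) : Fin l → K) ∈
      hyperplane (fun j => (u j : K)) := by
    rw [mem_hyperplane]
    simp only [Pi.sub_apply, mul_sub, Finset.sum_sub_distrib, Pi.single_apply, mul_ite, mul_zero,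
      Finset.sum_ite_eq', Finset.mem_univ, if_true]
    ring
  rw [he, mem_hyperplane] at h1
  simp only [Pi.sub_apply, mul_sub, Finset.sum_sub_distrib, Pi.single_apply, mul_ite, mul_zero,
    Finset.sum_ite_eq', Finset.mem_univ, if_true] at h1
  apply hpq
  have h2 : (u p : K) * v q = u q * v p := by linear_combination -h1
  exact_mod_cast h2

lemma isArr [CharZero K] (a : Fin n → Fin l → ℤ) (h0 : ∀ i, ∃ j, a i j ≠ 0)
    (h : ∀ i j, i ≠ j → ∃ p q, a i p * a j q ≠ a i q * a j p) :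
    IsArrangement (fun i j => (a i j : K)) := by
  constructor
  · intro i hi
    obtain ⟨j, hj⟩ := h0 i
    apply hj
    have h1 : (a i j : K) = 0 := congrFun hi j
    exact_mod_cast h1
  · intro i j hij
    by_contra hc
    exact hyperplane_inj (h i j hc) hij

/-- the quadratic form lies in the ideal -/
lemma diagQ_mem [CharZero K] (A : Fin n → Fin l → K) (e : Fin l → K) :
    diagQ e ∈ stIdeal A (diagQ e) := by
  rw [mem_st_iff]
  refine ⟨mkDerivation K fun j => C (1 / 2 : K) * X j, ?_, ?_⟩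
  · rw [mem_logDer]
    intro i
    refine ⟨C (1 / 2 : K), ?_⟩
    unfold linearForm
    rw [Finset.sum_mul]
    refine Finset.sum_congr rfl fun j _ => ?_
    rw [mkDerivation_X]
    ring
  · rw [der_diagQ]
    unfold diagQ
    refine Finset.sum_congr rfl fun j _ => ?_
    rw [mkDerivation_X]
    have : (C (2 * e j) : MvPolynomial (Fin l) K) * (X j * (C (1 / 2 : K) * X j)) =
        C (2 * e j) * C (1 / 2 : K) * X j ^ 2 := by ring
    rw [this, ← C_mul]
    congr 2
    field_simp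

lemma diagQ_ne_zero {e : Fin l → K} (j : Fin l) (hj : e j ≠ 0) : diagQ e ≠ 0 := by
  intro h
  apply hj
  have h1 := congrArg (eval (Pi.single j 1)) h
  unfold diagQ at h1
  rw [map_sum, Finset.sum_eq_single j] at h1
  · simpa using h1
  · intro k _ hk
    simp [hk]
  · simp

/-- upper bounds from the multiples of the quadratic form -/
lemma hq_le [CharZero K] (A : Fin n → Fin (l + 1) → K) (e : Fin (l + 1) → K) (j : Fin (l + 1))
    (hj : e j ≠ 0) (i : ℕ) :
    hq (stIdeal A (diagQ e)) (i + 2) + (l + i).choose l ≤ (l + (i + 2)).choose l := by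
  have h1 := hq_add (stIdeal A (diagQ e)) (i + 2)
  have h2 := hI_ge (diagQ_hom e) (diagQ_ne_zero j hj) (diagQ_mem A e) i
  rw [finrank_W] at h1 h2
  omega

lemma hq_le0 (A : Fin n → Fin (l + 1) → K) (η : MvPolynomial (Fin (l + 1)) K) (i : ℕ) :
    hq (stIdeal A η) i ≤ (l + i).choose l := by
  have h1 := hq_add (stIdeal A η) i
  rw [finrank_W] at h1
  omega

/-- existence of the Hilbert polynomial -/
lemma exists_hilbert (A : Fin n → Fin l → K) (η : MvPolynomial (Fin l) K)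
    (h : ∀ d, n < d → hq (stIdeal A η) d = 0) : ∃ P, IsHilbertSeries A η P := by
  refine ⟨∑ i ∈ Finset.range (n + 1), Polynomial.monomial i (hq (stIdeal A η) i : ℚ), ?_⟩
  intro i
  rw [Polynomial.finsetSum_coeff]
  simp only [Polynomial.coeff_monomial]
  rw [Finset.sum_ite_eq' (Finset.range (n + 1)) i fun j => (hq (stIdeal A η) j : ℚ)]
  split_ifs with hi
  · rfl
  · rw [h i (by rw [Finset.mem_range] at hi; omega)]
    simp

/-- the numerical contradiction -/
lemma not_dvd {P Q : Polynomial ℚ} (hP : ∀ d, 10 < d → P.coeff d = 0)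
    (hP0 : P.coeff 0 = 1) (hP1 : P.coeff 1 = 4) (hP2 : P.coeff 2 = 9) (hP3 : P.coeff 3 = 16)
    (hP4 : 24 ≤ P.coeff 4) (hQ0 : Q.coeff 0 = 1) (hQ1 : Q.coeff 1 = 3) (hQ2 : Q.coeff 2 = 5)
    (hQ3 : Q.coeff 3 = 7) (hQ4 : Q.coeff 4 ≤ 8) (hQ7 : Q.coeff 7 ≠ 0) : ¬ Q ∣ P := by
  rintro ⟨R, hR⟩
  have hP' : P ≠ 0 := by
    intro h
    rw [h] at hP0
    simp at hP0
  have hQ' : Q ≠ 0 := by
    intro h
    rw [h] at hQ0
    simp at hQ0
  have hR' : R ≠ 0 := by
    intro h
    rw [h, mul_zero] at hR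
    exact hP' hR
  have h1 : P.natDegree ≤ 10 := by
    rw [Polynomial.natDegree_le_iff_coeff_eq_zero]
    exact hP
  have h2 : 7 ≤ Q.natDegree := Polynomial.le_natDegree_of_ne_zero hQ7
  have h3 : P.natDegree = Q.natDegree + R.natDegree := by
    rw [hR, Polynomial.natDegree_mul hQ' hR']
  have h4 : R.coeff 4 = 0 := Polynomial.coeff_eq_zero_of_natDegree_lt (by omega)
  have hc : ∀ d, P.coeff d = ∑ i ∈ Finset.range (d + 1), Q.coeff i * R.coeff (d - i) := by
    intro d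
    rw [hR, Polynomial.coeff_mul, Finset.Nat.sum_antidiagonal_eq_sum_range_succ_mk]
  have c0 := hc 0
  have c1 := hc 1
  have c2 := hc 2
  have c3 := hc 3
  have c4 := hc 4
  simp only [Finset.sum_range_succ, Finset.sum_range_zero, zero_add, hQ0, hQ1, hQ2, hQ3, h4,
    hP0, hP1, hP2, hP3] at c0 c1 c2 c3 c4
  norm_num at c0 c1 c2 c3 c4
  rw [← c0, mul_one] at c4
  linarith

end general

section data

variable (K) [CharZero K]

/-- the forms of the arrangement in four variables -/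
abbrev AA : Fin 10 → Fin 4 → K := fun i j => (FlatsA.a i j : K)

/-- the forms of the restriction -/
abbrev BB : Fin 7 → Fin 3 → K := fun i j => (FlatsB.a i j : K)

/-- `x² + y² + z² + w²` -/
noncomputable abbrev etaA : MvPolynomial (Fin 4) K := diagQ fun j => (FlatsA.e j : K)

/-- `2x² + y² + w²` -/
noncomputable abbrev etaB : MvPolynomial (Fin 3) K := diagQ fun j => (FlatsB.e j : K)

lemma arrA : IsArrangement (AA K) := isArr FlatsA.a (by decide) (by decide +kernel)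

lemma arrB : IsArrangement (BB K) := isArr FlatsB.a (by decide) (by decide +kernel)

lemma genA : IsGeneric (AA K) 2 (etaA K) := by
  refine ⟨diagQ_hom _, ?_⟩
  have h := nondeg_flats (K := K) (A := AA K) (fun i j => (FlatsA.a i j : ℚ))
    (fun i j => by simp) (fun j => (FlatsA.e j : ℚ)) (by
      intro j
      have : ∀ j, 0 < FlatsA.e j := by decide
      exact_mod_cast this j)
  intro W hW
  have h2 : NonDegenerateOn (diagQ fun j => (FlatsA.e j : K)) W := by simpa using h W hW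
  exact h2

lemma genB : ∀ W ∈ flats (BB K), NonDegenerateOn (etaB K) W := by
  have h := nondeg_flats (K := K) (A := BB K) (fun i j => (FlatsB.a i j : ℚ))
    (fun i j => by simp) (fun j => (FlatsB.e j : ℚ)) (by
      intro j
      have : ∀ j, 0 < FlatsB.e j := by decide
      exact_mod_cast this j)
  intro W hW
  have h2 := h W hW
  simpa using h2

lemma topA {d : ℕ} (hd : 10 < d) : hq (stIdeal (AA K) (etaA K)) d = 0 :=
  hq_eq_zero (AA K) (arrA K).1 (diagQ_hom _) (genA K).2 hd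

lemma topB {d : ℕ} (hd : 7 < d) : hq (stIdeal (BB K) (etaB K)) d = 0 :=
  hq_eq_zero (BB K) (arrB K).1 (diagQ_hom _) (genB K) hd

lemma a0 : hq (stIdeal (AA K) (etaA K)) 0 = 1 := by
  have h1 : 1 ≤ hq (stIdeal (AA K) (etaA K)) 0 := one_le_hq_zero (AA K) _
  have h2 := hq_le0 (AA K) (etaA K) 0
  have h3 : (3 + 0).choose 3 = 1 := by decide
  omega

lemma a1 : hq (stIdeal (AA K) (etaA K)) 1 = 4 := by
  have h1 : 4 ≤ hq (stIdeal (AA K) (etaA K)) 1 := FlatsA.le1 K
  have h2 := hq_le0 (AA K) (etaA K) 1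
  have h3 : (3 + 1).choose 3 = 4 := by decide
  omega

lemma eA0 : (FlatsA.e 0 : K) ≠ 0 := by
  have : FlatsA.e 0 ≠ 0 := by decide
  exact_mod_cast this

lemma eB0 : (FlatsB.e 0 : K) ≠ 0 := by
  have : FlatsB.e 0 ≠ 0 := by decide
  exact_mod_cast this

lemma a2 : hq (stIdeal (AA K) (etaA K)) 2 = 9 := by
  have h1 : 9 ≤ hq (stIdeal (AA K) (etaA K)) 2 := FlatsA.le2 K
  have h2 : hq (stIdeal (AA K) (etaA K)) 2 + (3 + 0).choose 3 ≤
      (3 + (0 + 2)).choose 3 := hq_le (AA K) _ 0 (eA0 K) 0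
  have h3 : (3 + 0).choose 3 = 1 := by decide
  have h4 : (3 + (0 + 2)).choose 3 = 10 := by decide
  omega

lemma a3 : hq (stIdeal (AA K) (etaA K)) 3 = 16 := by
  have h1 : 16 ≤ hq (stIdeal (AA K) (etaA K)) 3 := FlatsA.le3 K
  have h2 : hq (stIdeal (AA K) (etaA K)) 3 + (3 + 1).choose 3 ≤
      (3 + (1 + 2)).choose 3 := hq_le (AA K) _ 0 (eA0 K) 1
  have h3 : (3 + 1).choose 3 = 4 := by decide
  have h4 : (3 + (1 + 2)).choose 3 = 20 := by decide
  omega

lemma b0 : hq (stIdeal (BB K) (etaB K)) 0 = 1 := by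
  have h1 : 1 ≤ hq (stIdeal (BB K) (etaB K)) 0 := one_le_hq_zero (BB K) _
  have h2 := hq_le0 (BB K) (etaB K) 0
  have h3 : (2 + 0).choose 2 = 1 := by decide
  omega

lemma b1 : hq (stIdeal (BB K) (etaB K)) 1 = 3 := by
  have h1 : 3 ≤ hq (stIdeal (BB K) (etaB K)) 1 := FlatsB.le1 K
  have h2 := hq_le0 (BB K) (etaB K) 1
  have h3 : (2 + 1).choose 2 = 3 := by decide
  omega

lemma b2 : hq (stIdeal (BB K) (etaB K)) 2 = 5 := by
  have h1 : 5 ≤ hq (stIdeal (BB K) (etaB K)) 2 := FlatsB.le2 K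
  have h2 : hq (stIdeal (BB K) (etaB K)) 2 + (2 + 0).choose 2 ≤
      (2 + (0 + 2)).choose 2 := hq_le (BB K) _ 0 (eB0 K) 0
  have h3 : (2 + 0).choose 2 = 1 := by decide
  have h4 : (2 + (0 + 2)).choose 2 = 6 := by decide
  omega

lemma b3 : hq (stIdeal (BB K) (etaB K)) 3 = 7 := by
  have h1 : 7 ≤ hq (stIdeal (BB K) (etaB K)) 3 := FlatsB.le3 K
  have h2 : hq (stIdeal (BB K) (etaB K)) 3 + (2 + 1).choose 2 ≤
      (2 + (1 + 2)).choose 2 := hq_le (BB K) _ 0 (eB0 K) 1
  have h3 : (2 + 1).choose 2 = 3 := by decide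
  have h4 : (2 + (1 + 2)).choose 2 = 10 := by decide
  omega

/-- the second element of degree four -/
noncomputable def g4 : MvPolynomial (Fin 3) K :=
  2 * (X 1 * (X 1 * ((X 0 - X 1) * (2 * X 0 - X 1 - 3 * X 2)))) +
    2 * (X 2 * (X 2 * ((X 0 - X 2) * (2 * X 0 - 3 * X 1 - X 2))))

omit [CharZero K] in
lemma C2 : (C (2 : K) : MvPolynomial (Fin 3) K) = 2 := map_ofNat C 2

omit [CharZero K] in
lemma C3 : (C (3 : K) : MvPolynomial (Fin 3) K) = 3 := map_ofNat C 3

lemma g4_mem : g4 K ∈ stIdeal (BB K) (etaB K) := by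
  rw [mem_st_iff]
  refine ⟨mkDerivation K ![0, X 1 * ((X 0 - X 1) * (2 * X 0 - X 1 - 3 * X 2)),
    X 2 * ((X 0 - X 2) * (2 * X 0 - 3 * X 1 - X 2))], ?_, ?_⟩
  · rw [mem_logDer]
    intro i
    simp only [mkDerivation_X, Fin.sum_univ_three, linearForm]
    fin_cases i
    · refine ⟨0, ?_⟩
      simp [FlatsB.a]
    · refine ⟨(X 0 - X 1) * (2 * X 0 - X 1 - 3 * X 2), ?_⟩
      simp [FlatsB.a]
    · refine ⟨(X 0 - X 2) * (2 * X 0 - 3 * X 1 - X 2), ?_⟩
      simp [FlatsB.a]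
    · refine ⟨-(X 2 * (2 * X 0 - 3 * X 1 - X 2)), ?_⟩
      simp [FlatsB.a]
      ring
    · refine ⟨-(X 1 * (2 * X 0 - X 1 - 3 * X 2)), ?_⟩
      simp [FlatsB.a]
      ring
    · refine ⟨(2 * X 0 - X 1 - X 2) * (X 0 - X 1 - X 2), ?_⟩
      simp [FlatsB.a]
      ring
    · refine ⟨-((X 1 + X 2) * (X 0 - X 1 - X 2)), ?_⟩
      simp [FlatsB.a]
      ring
  · rw [der_diagQ, Fin.sum_univ_three]
    simp only [mkDerivation_X]
    unfold g4
    simp [FlatsB.e, C2]

lemma g4_hom : (g4 K).IsHomogeneous 4 := by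
  have h0 := isHomogeneous_X K (0 : Fin 3)
  have h1 := isHomogeneous_X K (1 : Fin 3)
  have h2 := isHomogeneous_X K (2 : Fin 3)
  unfold g4
  rw [← C2, ← C3]
  have e1 : (C (2 : K) * X 0 - X 1 - C (3 : K) * X 2 : MvPolynomial (Fin 3) K).IsHomogeneous 1 :=
    ((h0.C_mul _).sub h1).sub (h2.C_mul _)
  have e2 : (C (2 : K) * X 0 - C (3 : K) * X 1 - X 2 : MvPolynomial (Fin 3) K).IsHomogeneous 1 :=
    ((h0.C_mul _).sub (h1.C_mul _)).sub h2
  exact ((h1.mul (h1.mul ((h0.sub h1).mul e1))).C_mul _).add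
    ((h2.mul (h2.mul ((h0.sub h2).mul e2))).C_mul _)

lemma g4_not [IsAlgClosed K] : ¬ etaB K ∣ g4 K := by
  rintro ⟨q, hq⟩
  obtain ⟨i, hi⟩ := IsAlgClosed.exists_pow_nat_eq (-1 : K) (n := 2) (by norm_num)
  have h1 := congrArg (eval ![0, 1, i]) hq
  rw [map_mul] at h1
  have h2 : eval ![0, 1, i] (etaB K) = 0 := by
    unfold etaB diagQ
    rw [Fin.sum_univ_three]
    simp [FlatsB.e, hi]
  rw [h2, zero_mul] at h1
  have h3 : eval ![0, 1, i] (g4 K) = 4 := by
    unfold g4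
    simp
    linear_combination (2 * i ^ 2 + 6 * i - 2) * hi
  rw [h3] at h1
  norm_num at h1

lemma b4 [IsAlgClosed K] : hq (stIdeal (BB K) (etaB K)) 4 ≤ 8 := by
  have h1 := hq_add (stIdeal (BB K) (etaB K)) 4
  have h2 := hI_ge' (diagQ_hom _) (diagQ_ne_zero 0 (eB0 K)) (diagQ_mem (BB K) _) 2 (g4_hom K)
    (g4_mem K) (g4_not K)
  rw [finrank_W] at h1 h2
  have h3 : (2 + 2).choose 2 = 6 := by decide
  have h4 : (2 + 4).choose 2 = 15 := by decide
  have h5 : (2 : ℕ) + 2 = 4 := rfl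
  rw [h3] at h2
  rw [h4] at h1
  change 6 + 1 ≤ hI (stIdeal (BB K) (etaB K)) 4 at h2
  omega

end data

end Pool.Agent.L5helper27.STD
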